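import Pool.Agent.Results.MP_e734ed_nt.WindowsWithoutExceptions
import Pool.Agent.T9h23.Op.A2

/-! # Counting exceptions to the inequality of Hall -/

set_option autoImplicit false

namespace T9h23.Ha

open Finset

/-- `x` is the abscissa of an exception with the exponent `1/2 - δ` -/
def BadX (δ : ℝ) (x : ℤ) : Prop := ∃ y : ℤ, y ^ 2 ≠ x ^ 3 ∧
  |(y : ℝ) ^ 2 - (x : ℝ) ^ 3| < |(x : ℝ)| ^ (1 / 2 - δ)

/-- `y` is the ordinate of an exception with the exponent `1/2 - δ` -/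
def BadY (δ : ℝ) (y : ℤ) : Prop := ∃ x : ℤ, y ^ 2 ≠ x ^ 3 ∧
  |(y : ℝ) ^ 2 - (x : ℝ) ^ 3| < |(x : ℝ)| ^ (1 / 2 - δ)

theorem countX (δ : ℝ) (h0 : 0 < δ) (h1 : δ ≤ 1 / 2) : ∃ K : ℝ, 0 < K ∧ ∀ X : ℝ, 1 ≤ X →
    ∀ U : Finset ℤ, (∀ x ∈ U, |(x : ℝ)| ≤ X ∧ BadX δ x) → (U.card : ℝ) ≤ K * X ^ (1 / 3 - δ / 12) := by
  classical
  obtain ⟨K, hK⟩ := Pool.Agent.Results.MP_e734ed_nt.WindowsWithoutExceptions.count_x 1 δ h0.le h1
    (δ / 12) (by positivity)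
  refine ⟨|K| + 1, by positivity, ?_⟩
  intro X hX U hU
  obtain ⟨hfin, hcard⟩ := hK X hX
  have hch : ∀ x : ℤ, ∃ y : ℤ, x ∈ U → (x, y) ∈ {e : ℤ × ℤ |
      e ∈ Pool.Agent.Results.MP_e734ed_nt.WindowsWithoutExceptions.Exc 1 δ ∧ |((e.1 : ℤ) : ℝ)| ≤ X} := by
    intro x
    by_cases hx : x ∈ U
    · obtain ⟨h1, y, h2, h3⟩ := hU x hx
      exact ⟨y, fun _ => ⟨⟨h2, by rw [one_mul]; exact h3.le⟩, h1⟩⟩
    · exact ⟨0, fun h => absurd h hx⟩
  choose g hg using hch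
  have h2 : U.card ≤ {e : ℤ × ℤ |
      e ∈ Pool.Agent.Results.MP_e734ed_nt.WindowsWithoutExceptions.Exc 1 δ ∧ |((e.1 : ℤ) : ℝ)| ≤ X}.ncard := by
    rw [← Set.ncard_coe_finset]
    apply Set.ncard_le_ncard_of_injOn (fun x => (x, g x)) (ht := hfin)
    · intro x hx
      exact hg x hx
    · intro a _ b _ hab
      exact (Prod.ext_iff.1 hab).1
  have hX0 : 0 < X := by linarith
  have h3 : 1 / 3 - δ / 6 + δ / 12 = 1 / 3 - δ / 12 := by ring
  rw [h3] at hcard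
  have h4 : 0 ≤ X ^ (1 / 3 - δ / 12) := by positivity
  calc (U.card : ℝ) ≤ _ := by exact_mod_cast h2
    _ ≤ K * X ^ (1 / 3 - δ / 12) := hcard
    _ ≤ (|K| + 1) * X ^ (1 / 3 - δ / 12) := by
        apply mul_le_mul_of_nonneg_right _ h4
        have := le_abs_self K
        linarith

theorem countY (δ : ℝ) (h0 : 0 < δ) (h1 : δ ≤ 1 / 2) : ∃ K : ℝ, 0 < K ∧ ∀ X : ℝ, 1 ≤ X →
    ∀ U : Finset ℤ, (∀ y ∈ U, |(y : ℝ)| ≤ X ∧ BadY δ y) → (U.card : ℝ) ≤ K * X ^ (2 / 9 - δ / 18) := by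
  classical
  obtain ⟨K, hK⟩ := Pool.Agent.Results.MP_e734ed_nt.WindowsWithoutExceptions.count_y 1 δ h0.le h1
    (δ / 18) (by positivity)
  refine ⟨|K| + 1, by positivity, ?_⟩
  intro X hX U hU
  obtain ⟨hfin, hcard⟩ := hK X hX
  have hch : ∀ y : ℤ, ∃ x : ℤ, y ∈ U → (x, y) ∈ {e : ℤ × ℤ |
      e ∈ Pool.Agent.Results.MP_e734ed_nt.WindowsWithoutExceptions.Exc 1 δ ∧ |((e.2 : ℤ) : ℝ)| ≤ X} := by
    intro y
    by_cases hy : y ∈ U
    · obtain ⟨h1, x, h2, h3⟩ := hU y hy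
      exact ⟨x, fun _ => ⟨⟨h2, by rw [one_mul]; exact h3.le⟩, h1⟩⟩
    · exact ⟨0, fun h => absurd h hy⟩
  choose g hg using hch
  have h2 : U.card ≤ {e : ℤ × ℤ |
      e ∈ Pool.Agent.Results.MP_e734ed_nt.WindowsWithoutExceptions.Exc 1 δ ∧ |((e.2 : ℤ) : ℝ)| ≤ X}.ncard := by
    rw [← Set.ncard_coe_finset]
    apply Set.ncard_le_ncard_of_injOn (fun y => (g y, y)) (ht := hfin)
    · intro x hx
      exact hg x hx
    · intro a _ b _ hab
      exact (Prod.ext_iff.1 hab).2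
  have hX0 : 0 < X := by linarith
  have h3 : 2 / 9 - δ / 9 + δ / 18 = 2 / 9 - δ / 18 := by ring
  rw [h3] at hcard
  have h4 : 0 ≤ X ^ (2 / 9 - δ / 18) := by positivity
  calc (U.card : ℝ) ≤ _ := by exact_mod_cast h2
    _ ≤ K * X ^ (2 / 9 - δ / 18) := hcard
    _ ≤ (|K| + 1) * X ^ (2 / 9 - δ / 18) := by
        apply mul_le_mul_of_nonneg_right _ h4
        have := le_abs_self K
        linarith

theorem pos_count (A L T : ℝ) (hT : 0 < T) (hL : 0 ≤ L) (s : Finset ℤ)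
    (h : ∀ t ∈ s, T ≤ (t : ℝ) ∧ A ≤ (t : ℝ) ^ 2 ∧ (t : ℝ) ^ 2 ≤ A + L) : (s.card : ℝ) ≤ L / (2 * T) + 1 := by
  rcases s.eq_empty_or_nonempty with h0 | h0
  · rw [h0, card_empty]
    push_cast
    positivity
  · set m := s.min' h0 with hm
    set M := s.max' h0 with hM
    obtain ⟨a1, a2, a3⟩ := h m (s.min'_mem h0)
    obtain ⟨b1, b2, b3⟩ := h M (s.max'_mem h0)
    have hmM : m ≤ M := s.min'_le_max' h0
    have hmMr : (m : ℝ) ≤ M := by exact_mod_cast hmM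
    have h1 : ((M : ℝ) - m) * (2 * T) ≤ L := by
      have h2 : ((M : ℝ) - m) * (2 * T) ≤ ((M : ℝ) - m) * (M + m) := by
        apply mul_le_mul_of_nonneg_left _ (by linarith)
        linarith
      nlinarith
    have h2 : (M : ℝ) - m ≤ L / (2 * T) := by
      rw [le_div_iff₀ (by positivity)]; exact h1
    have h3 : s.card ≤ (Icc m M).card := by
      apply Finset.card_le_card
      intro t ht
      rw [mem_Icc]
      exact ⟨s.min'_le t ht, s.le_max' t ht⟩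
    rw [Int.card_Icc] at h3
    have h4 : (s.card : ℝ) ≤ M - m + 1 := by
      have h5 : ((M + 1 - m).toNat : ℤ) = M + 1 - m := Int.toNat_of_nonneg (by omega)
      have h6 : (s.card : ℤ) ≤ M + 1 - m := by
        rw [← h5]; exact_mod_cast h3
      have h7 : ((s.card : ℤ) : ℝ) ≤ ((M + 1 - m : ℤ) : ℝ) := by exact_mod_cast h6
      push_cast at h7
      linarith
    linarith

theorem sq_count (A L T : ℝ) (hT : 0 < T) (hL : 0 ≤ L) (s : Finset ℤ)
    (h : ∀ t ∈ s, T ≤ |(t : ℝ)| ∧ A ≤ (t : ℝ) ^ 2 ∧ (t : ℝ) ^ 2 ≤ A + L) : (s.card : ℝ) ≤ L / T + 2 := by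
  classical
  have h1 := pos_count A L T hT hL (s.filter (fun t => 0 < t)) (by
    intro t ht
    rw [mem_filter] at ht
    have h2 := h t ht.1
    have h3 : (0 : ℝ) < t := by exact_mod_cast ht.2
    rw [abs_of_pos h3] at h2
    exact h2)
  have h2 := pos_count A L T hT hL ((s.filter (fun t => ¬ 0 < t)).image (fun t => -t)) (by
    intro t ht
    rw [mem_image] at ht
    obtain ⟨u, hu, rfl⟩ := ht
    rw [mem_filter] at hu
    have h2 := h u hu.1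
    have h3 : (u : ℝ) ≤ 0 := by exact_mod_cast (not_lt.1 hu.2)
    rw [abs_of_nonpos h3] at h2
    push_cast
    rw [neg_sq]
    exact h2)
  rw [Finset.card_image_of_injective _ neg_injective] at h2
  have h3 := Finset.card_filter_add_card_filter_not (s := s) (fun t => 0 < t)
  have h4 : (s.card : ℝ) = ((s.filter (fun t => 0 < t)).card : ℝ) + ((s.filter (fun t => ¬ 0 < t)).card : ℝ) := by
    rw [← h3]; push_cast; rfl
  have h5 : L / T = L / (2 * T) + L / (2 * T) := by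
    field_simp; ring
  rw [h4, h5]
  linarith

end T9h23.Ha
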