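import Mathlib

/-! # Hall's inequality for `4 x` very close to a square -/

set_option autoImplicit false

namespace T9h23.Ha

theorem elem0 (x y M R : ℤ) (hR : R ≠ 0) (hy : 0 ≤ y) (hM : 1000000 ≤ M) (h4 : 4 * x = M ^ 2 + R)
    (hRM : 2 * |R| ^ 3 ≤ M ^ 2) : M ≤ |y ^ 2 - x ^ 3| := by
  by_contra hcon
  push Not at hcon
  set r : ℤ := |R| with hr
  have hr1 : 1 ≤ r := Int.one_le_abs hR
  have hRr : R ≤ r := le_abs_self R
  have hRr' : -r ≤ R := neg_abs_le R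
  have hR2 : R ^ 2 = r ^ 2 := by rw [hr, sq_abs]
  have hr100 : 100 * r ≤ M := by
    by_contra h
    push Not at h
    have h1 : M ^ 3 < (100 * r) ^ 3 := by
      apply pow_lt_pow_left₀ h (by linarith) (by norm_num)
    have h2 : (100 * r) ^ 3 = 1000000 * r ^ 3 := by ring
    have h3 : M ^ 3 = M * M ^ 2 := by ring
    nlinarith [sq_nonneg M]
  obtain ⟨D, hD⟩ : ∃ D : ℤ, D = 64 * (x ^ 3 - y ^ 2) := ⟨_, rfl⟩
  have hD1 : |D| < 64 * M := by
    rw [hD, abs_mul, abs_sub_comm]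
    norm_num
    linarith
  rw [abs_lt] at hD1
  have h64 : 64 * x ^ 3 = (M ^ 2 + R) ^ 3 := by rw [← h4]; ring
  obtain ⟨Z, hZ⟩ : ∃ Z : ℤ, Z = 2 * M ^ 3 + 3 * M * R := ⟨_, rfl⟩
  have hW : (16 * y) ^ 2 = Z ^ 2 + (3 * M ^ 2 * R ^ 2 + 4 * R ^ 3 - 4 * D) := by
    rw [hZ, hD]
    have : (16 * y) ^ 2 = 4 * (64 * x ^ 3) - 4 * (64 * (x ^ 3 - y ^ 2)) := by ring
    rw [this, h64]
    ring
  have hR3 : |R ^ 3| = r ^ 3 := by rw [hr, abs_pow]
  have hR3' := abs_le.1 hR3.le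
  have hMR : 0 ≤ M * (R + r) := by
    apply mul_nonneg (by linarith) (by linarith)
  have hZ1 : 19 * M ^ 3 ≤ 10 * Z := by
    rw [hZ]
    have h1 : 3 * M * r ≤ M ^ 2 := by nlinarith
    have h2 : M ^ 2 * 1000000 ≤ M ^ 3 := by
      have : M ^ 3 = M ^ 2 * M := by ring
      rw [this]
      exact mul_le_mul_of_nonneg_left hM (by positivity)
    nlinarith
  have hM3 : 0 < M ^ 3 := by positivity
  have hZ0 : 0 < Z := by linarith
  have hM2 : 1000000 * M ≤ M ^ 2 := by nlinarith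
  have hE1 : 0 < 3 * M ^ 2 * R ^ 2 + 4 * R ^ 3 - 4 * D := by
    have h1 : M ^ 2 * 1 ≤ M ^ 2 * R ^ 2 := by
      apply mul_le_mul_of_nonneg_left _ (by positivity)
      rw [hR2]; nlinarith
    nlinarith
  have hWZ : Z < 16 * y := by
    apply lt_of_pow_lt_pow_left₀ 2 (by linarith)
    rw [hW]; linarith
  obtain ⟨k, hk⟩ : ∃ k : ℤ, k = 16 * y - Z := ⟨_, rfl⟩
  have hk1 : 1 ≤ k := by omega
  have hkE : 2 * k * Z + k ^ 2 = 3 * M ^ 2 * R ^ 2 + 4 * R ^ 3 - 4 * D := by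
    have : 16 * y = Z + k := by rw [hk]; ring
    rw [this] at hW
    linear_combination hW
  -- the size of k
  have hkM : 19 * (k * M) ≤ 30 * r ^ 2 := by
    have h1 : 2 * k * Z ≤ 6 * M ^ 2 * r ^ 2 := by
      have h2 : M ^ 2 * 1 ≤ M ^ 2 * r ^ 2 := by
        apply mul_le_mul_of_nonneg_left _ (by positivity)
        nlinarith
      rw [hR2] at hkE
      nlinarith [sq_nonneg k]
    have h3 : k * (19 * M ^ 3) ≤ k * (10 * Z) := mul_le_mul_of_nonneg_left hZ1 (by linarith)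
    have h4 : M ^ 2 * (19 * (k * M)) ≤ M ^ 2 * (30 * r ^ 2) := by nlinarith
    exact le_of_mul_le_mul_left h4 (by positivity)
  have hk2 : k ^ 2 ≤ 2 * r := by
    have h1 : (19 * (k * M)) ^ 2 ≤ (30 * r ^ 2) ^ 2 := by
      apply pow_le_pow_left₀ (by positivity) hkM
    have h2 : r * (2 * r ^ 3) ≤ r * M ^ 2 := mul_le_mul_of_nonneg_left hRM (by linarith)
    have h3 : M ^ 2 * (361 * k ^ 2) ≤ M ^ 2 * (450 * r) := by nlinarith
    have h4 := le_of_mul_le_mul_left h3 (by positivity)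
    linarith
  obtain ⟨j, hj⟩ : ∃ j : ℤ, j = 4 * k * M - 3 * R ^ 2 := ⟨_, rfl⟩
  have hjeq : (2 * M ^ 2 + 3 * R) * j = -(R ^ 3) - 8 * D - 2 * k ^ 2 := by
    rw [hj]
    rw [hZ] at hkE
    linear_combination 2 * hkE
  have hj0 : j = 0 := by
    by_contra hne
    have hj1 : 1 ≤ |j| := Int.one_le_abs hne
    have hpos : 0 < 2 * M ^ 2 + 3 * R := by nlinarith
    have h1 : 2 * M ^ 2 + 3 * R ≤ |(2 * M ^ 2 + 3 * R) * j| := by
      rw [abs_mul, abs_of_pos hpos]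
      exact le_mul_of_one_le_right hpos.le hj1
    rw [hjeq] at h1
    have h2 : |-(R ^ 3) - 8 * D - 2 * k ^ 2| ≤ r ^ 3 + 512 * M + 4 * r := by
      rw [abs_le]
      constructor
      · nlinarith [hR3'.1, hR3'.2, hD1.1, hD1.2]
      · nlinarith [hR3'.1, hR3'.2, hD1.1, hD1.2, sq_nonneg k]
    nlinarith
  rw [hj0, mul_zero] at hjeq
  rw [hj0] at hj
  have h1 : 4 * M ≤ 3 * r ^ 2 := by
    rw [← hR2]
    nlinarith
  have h2 : r ^ 3 ≤ 516 * M := by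
    have h3 : |R ^ 3| ≤ 512 * M + 2 * k ^ 2 := by
      rw [abs_le]
      constructor
      · nlinarith [hD1.1, hD1.2, sq_nonneg k]
      · nlinarith [hD1.1, hD1.2, sq_nonneg k]
    rw [hR3] at h3
    linarith
  have h3 : M * (4 * r) ≤ M * 1548 := by nlinarith
  have h4 := le_of_mul_le_mul_left h3 (by linarith)
  have h5 : r ≤ 387 := by omega
  nlinarith

theorem elem (x y M R : ℤ) (hR : R ≠ 0) (hM : 1000000 ≤ |M|) (h4 : 4 * x = M ^ 2 + R)
    (hRM : 2 * |R| ^ 3 ≤ M ^ 2) : |M| ≤ |y ^ 2 - x ^ 3| := by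
  have := elem0 x |y| |M| R hR (abs_nonneg y) hM (by rw [sq_abs]; exact h4) (by rw [sq_abs]; exact hRM)
  rwa [sq_abs] at this

end T9h23.Ha
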