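import Pool.Agent.T9h23.Ha.E2

/-! # Quadratic polynomials with an exceptional value -/

set_option autoImplicit false

namespace T9h23.Ha

open Finset
open scoped Classical

/-- the pairs of integers in `[-H, H]` -/
noncomputable def sq (H : ℕ) : Finset (ℤ × ℤ) := Icc (-(H : ℤ)) H ×ˢ Icc (-(H : ℤ)) H

/-- the value of the polynomial `n ^ 2 + b n + c` -/
def qv (p : ℤ × ℤ) (n : ℤ) : ℤ := n ^ 2 + p.1 * n + p.2

theorem mem_sq {H : ℕ} {p : ℤ × ℤ} : p ∈ sq H ↔ |p.1| ≤ H ∧ |p.2| ≤ H := by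
  unfold sq
  rw [mem_product, mem_Icc, mem_Icc, abs_le, abs_le]

/-- the polynomials with a given value at `n` -/
theorem reps (H : ℕ) (n x : ℤ) : (((sq H).filter (fun p => qv p n = x)).card : ℝ) ≤
    (2 * H + 1) / (max |(n : ℝ)| 1) + 1 := by
  rcases eq_or_ne n 0 with h0 | h0
  · subst h0
    have h1 : ((sq H).filter (fun p => qv p 0 = x)).card ≤ (Icc (-(H : ℤ)) H).card := by
      refine Finset.card_le_card_of_injOn (fun p => p.1) ?_ ?_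
      · intro p hp
        rw [Finset.mem_coe, mem_filter, mem_sq] at hp
        rw [Finset.mem_coe, mem_Icc, ← abs_le]
        exact hp.1.1
      · intro p hp q hq hpq
        rw [Finset.mem_coe, mem_filter] at hp hq
        have e1 := hp.2
        have e2 := hq.2
        unfold qv at e1 e2
        simp only [mul_zero, ne_eq, OfNat.ofNat_ne_zero, not_false_eq_true, zero_pow, add_zero, zero_add] at e1 e2
        exact Prod.ext hpq (by rw [e1, e2])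
    rw [Int.card_Icc] at h1
    have h2 : ((H : ℤ) + 1 - -(H : ℤ)).toNat = 2 * H + 1 := by omega
    rw [h2] at h1
    have h3 : (((sq H).filter (fun p => qv p 0 = x)).card : ℝ) ≤ 2 * H + 1 := by exact_mod_cast h1
    simp only [Int.cast_zero, abs_zero]
    rw [max_eq_right (by norm_num : (0 : ℝ) ≤ 1)]
    linarith
  · have hn1 : (1 : ℝ) ≤ |(n : ℝ)| := by
      have : 1 ≤ |n| := Int.one_le_abs h0
      exact_mod_cast this
    rw [max_eq_left hn1]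
    have h1 : ((sq H).filter (fun p => qv p n = x)).card ≤
        ((Icc (-(H : ℤ)) H).filter (fun t => |n| ∣ t - x)).card := by
      refine Finset.card_le_card_of_injOn (fun p => p.2) ?_ ?_
      · intro p hp
        rw [Finset.mem_coe, mem_filter, mem_sq] at hp
        rw [Finset.mem_coe, mem_filter, mem_Icc, ← abs_le, abs_dvd]
        refine ⟨hp.1.2, ⟨-(n + p.1), ?_⟩⟩
        have := hp.2
        unfold qv at this
        rw [← this]; ring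
      · intro p hp q hq hpq
        rw [Finset.mem_coe, mem_filter] at hp hq
        have e1 := hp.2
        have e2 := hq.2
        dsimp only at hpq
        unfold qv at e1 e2
        rw [hpq] at e1
        have e3 : (p.1 - q.1) * n = 0 := by linear_combination e1 - e2
        rcases mul_eq_zero.1 e3 with e4 | e4
        · exact Prod.ext (by omega) hpq
        · exact absurd e4 h0
    have h2 := T9h23.Op.res_card H |n| x (abs_pos.2 h0)
    rw [Int.cast_abs] at h2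
    calc (((sq H).filter (fun p => qv p n = x)).card : ℝ) ≤ _ := by exact_mod_cast h1
      _ ≤ _ := h2

/-- one argument -/
theorem per_n {δ K γ : ℝ} (hcount : ∀ X : ℝ, 1 ≤ X → ∀ U : Finset ℤ,
    (∀ x ∈ U, |(x : ℝ)| ≤ X ∧ BadX δ x) → (U.card : ℝ) ≤ K * X ^ γ) (H : ℕ) (hH : 1 ≤ H) (n : ℤ) :
    (((sq H).filter (fun p => BadX δ (qv p n))).card : ℝ) ≤
      (K * (max |(n : ℝ)| 1 ^ 2 + 2 * H * max |(n : ℝ)| 1) ^ γ) * ((2 * H + 1) / (max |(n : ℝ)| 1) + 1) := by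
  have hHr : (1 : ℝ) ≤ H := by exact_mod_cast hH
  set m : ℝ := max |(n : ℝ)| 1 with hm
  have hm1 : 1 ≤ m := le_max_right _ _
  have hm2 : |(n : ℝ)| ≤ m := le_max_left _ _
  have hm0 : 0 < m := by linarith
  set X : ℝ := m ^ 2 + 2 * H * m with hX
  have hmm : m ≤ m ^ 2 := by nlinarith
  have hX1 : 1 ≤ X := by rw [hX]; nlinarith
  set B : Finset ℤ := (Icc (-⌊X⌋) ⌊X⌋).filter (fun x => BadX δ x) with hB
  have hBc : (B.card : ℝ) ≤ K * X ^ γ := by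
    apply hcount X hX1
    intro x hx
    rw [hB, mem_filter, mem_Icc, ← abs_le, Int.le_floor, Int.cast_abs] at hx
    exact hx
  have hval : ∀ p ∈ sq H, |((qv p n : ℤ) : ℝ)| ≤ X := by
    intro p hp
    rw [mem_sq] at hp
    have e1 : |(p.1 : ℝ)| ≤ H := by exact_mod_cast hp.1
    have e2 : |(p.2 : ℝ)| ≤ H := by exact_mod_cast hp.2
    unfold qv
    push_cast
    calc |(n : ℝ) ^ 2 + p.1 * n + p.2| ≤ |(n : ℝ) ^ 2| + |(p.1 : ℝ) * n| + |(p.2 : ℝ)| := abs_add_three _ _ _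
      _ = |(n : ℝ)| ^ 2 + |(p.1 : ℝ)| * |(n : ℝ)| + |(p.2 : ℝ)| := by rw [abs_pow, abs_mul]
      _ ≤ m ^ 2 + H * m + H := by gcongr
      _ ≤ X := by rw [hX]; nlinarith
  have hsub : (sq H).filter (fun p => BadX δ (qv p n)) ⊆ B.biUnion (fun x => (sq H).filter (fun p => qv p n = x)) := by
    intro p hp
    rw [mem_filter] at hp
    rw [mem_biUnion]
    refine ⟨qv p n, ?_, ?_⟩
    · rw [hB, mem_filter, mem_Icc, ← abs_le, Int.le_floor, Int.cast_abs]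
      exact ⟨hval p hp.1, hp.2⟩
    · rw [mem_filter]; exact ⟨hp.1, rfl⟩
  have hr0 : 0 ≤ (2 * (H : ℝ) + 1) / m + 1 := by positivity
  calc (((sq H).filter (fun p => BadX δ (qv p n))).card : ℝ)
      ≤ ((B.biUnion (fun x => (sq H).filter (fun p => qv p n = x))).card : ℝ) := by
        exact_mod_cast Finset.card_le_card hsub
    _ ≤ ∑ x ∈ B, (((sq H).filter (fun p => qv p n = x)).card : ℝ) := by exact_mod_cast Finset.card_biUnion_le
    _ ≤ B.card • ((2 * (H : ℝ) + 1) / m + 1) := Finset.sum_le_card_nsmul _ _ _ fun x _ => reps H n x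
    _ = (B.card : ℝ) * ((2 * (H : ℝ) + 1) / m + 1) := by rw [nsmul_eq_mul]
    _ ≤ _ := by gcongr

/-- all arguments, for values in a range -/
theorem range_card {δ K γ : ℝ} (hcount : ∀ X : ℝ, 1 ≤ X → ∀ U : Finset ℤ,
    (∀ x ∈ U, |(x : ℝ)| ≤ X ∧ BadX δ x) → (U.card : ℝ) ≤ K * X ^ γ) (H : ℕ) (hH : 1 ≤ H)
    (Q Xa Xb : ℝ) (hQ : 8 * (H : ℝ) ≤ Q) (hXa : 5 * (H : ℝ) ^ 2 ≤ 3 * Xa) (hXb : Xa ≤ Xb) :
    (((sq H).filter (fun p => Q < |((4 * p.2 - p.1 ^ 2 : ℤ) : ℝ)| ∧ ∃ n : ℤ, BadX δ (qv p n) ∧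
      Xa ≤ (qv p n : ℝ) ∧ (qv p n : ℝ) ≤ Xb)).card : ℝ) ≤
      (K * Xb ^ γ) * ((10 * (H : ℝ) ^ 2 / Real.sqrt Xa + 2) * (8 * H / Real.sqrt (Q / 2) + 2)) := by
  have hHr : (1 : ℝ) ≤ H := by exact_mod_cast hH
  have hXa1 : 1 ≤ Xa := by nlinarith
  have hXa0 : 0 < Xa := by linarith
  have hQ0 : 0 < Q := by linarith
  set P : ℤ := ⌊7 * Xb⌋ with hP
  set B : Finset ℤ := (Icc (-⌊Xb⌋) ⌊Xb⌋).filter (fun x => BadX δ x ∧ Xa ≤ (x : ℝ)) with hB
  have hBc : (B.card : ℝ) ≤ K * Xb ^ γ := by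
    apply hcount Xb (by linarith)
    intro x hx
    rw [hB, mem_filter, mem_Icc, ← abs_le, Int.le_floor, Int.cast_abs] at hx
    exact ⟨hx.1, hx.2.1⟩
  set Ms : ℤ → Finset ℤ := fun x => (Icc (-P) P).filter (fun M : ℤ =>
    |4 * (x : ℝ) - (M : ℝ) ^ 2| ≤ 5 * (H : ℝ) ^ 2 ∧ Real.sqrt Xa ≤ |(M : ℝ)|) with hMs
  set bs : ℤ → ℤ → Finset ℤ := fun x M => (Icc (-(H : ℤ)) H).filter (fun b : ℤ =>
    |(b : ℝ) ^ 2 + (4 * (x : ℝ) - (M : ℝ) ^ 2)| ≤ 4 * (H : ℝ) ∧ Q < |4 * (x : ℝ) - (M : ℝ) ^ 2|) with hbs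
  have hMc : ∀ x, ((Ms x).card : ℝ) ≤ 10 * (H : ℝ) ^ 2 / Real.sqrt Xa + 2 := by
    intro x
    apply sq_count (4 * (x : ℝ) - 5 * (H : ℝ) ^ 2) (10 * (H : ℝ) ^ 2) (Real.sqrt Xa) (Real.sqrt_pos.2 hXa0)
      (by positivity)
    intro M hM
    rw [hMs, mem_filter, abs_le] at hM
    refine ⟨hM.2.2, ?_, ?_⟩ <;> linarith [hM.2.1.1, hM.2.1.2]
  have hbc : ∀ x M, ((bs x M).card : ℝ) ≤ 8 * H / Real.sqrt (Q / 2) + 2 := by
    intro x M
    apply sq_count ((M : ℝ) ^ 2 - 4 * (x : ℝ) - 4 * H) (8 * H) (Real.sqrt (Q / 2)) (Real.sqrt_pos.2 (by positivity))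
      (by positivity)
    intro b hb
    rw [hbs, mem_filter, abs_le] at hb
    obtain ⟨-, ⟨g1, g2⟩, g3⟩ := hb
    refine ⟨?_, by linarith, by linarith⟩
    rw [← Real.sqrt_sq_eq_abs]
    apply Real.sqrt_le_sqrt
    rcases lt_abs.1 g3 with g4 | g4
    · nlinarith [sq_nonneg (b : ℝ)]
    · linarith
  have hsub : (sq H).filter (fun p => Q < |((4 * p.2 - p.1 ^ 2 : ℤ) : ℝ)| ∧ ∃ n : ℤ, BadX δ (qv p n) ∧
      Xa ≤ (qv p n : ℝ) ∧ (qv p n : ℝ) ≤ Xb) ⊆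
      B.biUnion (fun x => (Ms x).biUnion (fun M => (bs x M).image (fun b => (b, (4 * x - M ^ 2 + b ^ 2) / 4)))) := by
    rintro ⟨b, c⟩ hp
    rw [mem_filter, mem_sq] at hp
    obtain ⟨⟨hb, hc⟩, hQ1, n, hbad, hx1, hx2⟩ := hp
    dsimp only at hb hc hQ1
    set x : ℤ := qv (b, c) n with hx
    have hbr : |(b : ℝ)| ≤ H := by exact_mod_cast hb
    have hcr : |(c : ℝ)| ≤ H := by exact_mod_cast hc
    have hid : 4 * x - (2 * n + b) ^ 2 = 4 * c - b ^ 2 := by rw [hx]; unfold qv; ring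
    have hidr : 4 * (x : ℝ) - ((2 * n + b : ℤ) : ℝ) ^ 2 = ((4 * c - b ^ 2 : ℤ) : ℝ) := by
      rw [← hid]; push_cast; ring
    have hR5 : |((4 * c - b ^ 2 : ℤ) : ℝ)| ≤ 5 * (H : ℝ) ^ 2 := by
      push_cast
      calc |4 * (c : ℝ) - (b : ℝ) ^ 2| ≤ |4 * (c : ℝ)| + |(b : ℝ) ^ 2| := abs_sub _ _
        _ = 4 * |(c : ℝ)| + |(b : ℝ)| ^ 2 := by rw [abs_mul, abs_pow]; norm_num
        _ ≤ 4 * H + (H : ℝ) ^ 2 := by gcongr
        _ ≤ _ := by nlinarith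
    have hMsq : (x : ℝ) ≤ ((2 * n + b : ℤ) : ℝ) ^ 2 ∧ ((2 * n + b : ℤ) : ℝ) ^ 2 ≤ 7 * Xb := by
      have h1 := hR5
      rw [← hidr, abs_le] at h1
      constructor
      · linarith [h1.1, h1.2]
      · linarith [h1.1, h1.2]
    rw [mem_biUnion]
    refine ⟨x, ?_, ?_⟩
    · rw [hB, mem_filter, mem_Icc, ← abs_le, Int.le_floor, Int.cast_abs]
      refine ⟨?_, hbad, hx1⟩
      rw [abs_of_nonneg (by linarith)]
      exact hx2
    rw [mem_biUnion]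
    refine ⟨2 * n + b, ?_, ?_⟩
    · rw [hMs, mem_filter, mem_Icc, ← abs_le, hP, Int.le_floor, Int.cast_abs]
      refine ⟨?_, ?_, ?_⟩
      · have h1 : |((2 * n + b : ℤ) : ℝ)| ≤ ((2 * n + b : ℤ) : ℝ) ^ 2 := by
          rw [← sq_abs ((2 * n + b : ℤ) : ℝ)]
          have h2 : (|2 * n + b| : ℤ) ≤ |2 * n + b| ^ 2 := by
            have := abs_nonneg (2 * n + b)
            nlinarith
          have h3 : (((|2 * n + b| : ℤ)) : ℝ) ≤ ((|2 * n + b| ^ 2 : ℤ) : ℝ) := by exact_mod_cast h2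
          rw [Int.cast_pow, Int.cast_abs] at h3
          exact h3
        linarith [hMsq.2]
      · rw [hidr]; exact hR5
      · rw [← Real.sqrt_sq_eq_abs]
        apply Real.sqrt_le_sqrt
        linarith [hMsq.1]
    · rw [mem_image]
      refine ⟨b, ?_, ?_⟩
      · rw [hbs, mem_filter, mem_Icc, ← abs_le]
        refine ⟨hb, ?_, ?_⟩
        · rw [hidr]
          push_cast
          rw [show (b : ℝ) ^ 2 + (4 * (c : ℝ) - (b : ℝ) ^ 2) = 4 * c by ring, abs_mul]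
          norm_num
          linarith
        · rw [hidr]; exact hQ1
      · rw [hid]
        have : (4 * c - b ^ 2 + b ^ 2) / 4 = c := by
          rw [sub_add_cancel]
          exact Int.mul_ediv_cancel_left c (by norm_num)
        rw [this]
  have h0 : 0 ≤ 8 * (H : ℝ) / Real.sqrt (Q / 2) + 2 := by positivity
  have h00 : 0 ≤ 10 * (H : ℝ) ^ 2 / Real.sqrt Xa + 2 := by positivity
  calc (((sq H).filter (fun p => Q < |((4 * p.2 - p.1 ^ 2 : ℤ) : ℝ)| ∧ ∃ n : ℤ, BadX δ (qv p n) ∧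
      Xa ≤ (qv p n : ℝ) ∧ (qv p n : ℝ) ≤ Xb)).card : ℝ)
      ≤ ((B.biUnion (fun x => (Ms x).biUnion (fun M =>
          (bs x M).image (fun b => (b, (4 * x - M ^ 2 + b ^ 2) / 4))))).card : ℝ) := by
        exact_mod_cast Finset.card_le_card hsub
    _ ≤ ∑ x ∈ B, (((Ms x).biUnion (fun M => (bs x M).image (fun b => (b, (4 * x - M ^ 2 + b ^ 2) / 4)))).card : ℝ) := by
        exact_mod_cast Finset.card_biUnion_le
    _ ≤ ∑ x ∈ B, ((10 * (H : ℝ) ^ 2 / Real.sqrt Xa + 2) * (8 * H / Real.sqrt (Q / 2) + 2)) := by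
        apply Finset.sum_le_sum
        intro x _
        calc (((Ms x).biUnion (fun M => (bs x M).image (fun b => (b, (4 * x - M ^ 2 + b ^ 2) / 4)))).card : ℝ)
            ≤ ∑ M ∈ Ms x, (((bs x M).image (fun b => (b, (4 * x - M ^ 2 + b ^ 2) / 4))).card : ℝ) := by
              exact_mod_cast Finset.card_biUnion_le
          _ ≤ ∑ M ∈ Ms x, (8 * (H : ℝ) / Real.sqrt (Q / 2) + 2) := by
              apply Finset.sum_le_sum
              intro M _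
              refine le_trans ?_ (hbc x M)
              exact_mod_cast Finset.card_image_le
          _ = ((Ms x).card : ℝ) * (8 * H / Real.sqrt (Q / 2) + 2) := by rw [sum_const, nsmul_eq_mul]
          _ ≤ _ := mul_le_mul_of_nonneg_right (hMc x) h0
    _ = (B.card : ℝ) * ((10 * (H : ℝ) ^ 2 / Real.sqrt Xa + 2) * (8 * H / Real.sqrt (Q / 2) + 2)) := by
        rw [sum_const, nsmul_eq_mul]
    _ ≤ _ := mul_le_mul_of_nonneg_right hBc (by positivity)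

/-- polynomials with a small discriminant -/
theorem small_disc (H : ℕ) (hH : 1 ≤ H) (Q : ℝ) (hQ : 4 * (H : ℝ) ≤ Q) :
    (((sq H).filter (fun p => |((4 * p.2 - p.1 ^ 2 : ℤ) : ℝ)| ≤ Q)).card : ℝ) ≤
      (2 * Real.sqrt (2 * Q) + 1) * (2 * H + 1) := by
  have hHr : (1 : ℝ) ≤ H := by exact_mod_cast hH
  have hsub : (sq H).filter (fun p => |((4 * p.2 - p.1 ^ 2 : ℤ) : ℝ)| ≤ Q) ⊆
      (Icc (-⌊Real.sqrt (2 * Q)⌋) ⌊Real.sqrt (2 * Q)⌋) ×ˢ Icc (-(H : ℤ)) H := by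
    rintro ⟨b, c⟩ hp
    rw [mem_filter, mem_sq] at hp
    obtain ⟨⟨hb, hc⟩, hQ1⟩ := hp
    dsimp only at hb hc hQ1
    rw [mem_product, mem_Icc, ← abs_le, Int.le_floor, Int.cast_abs, mem_Icc, ← abs_le]
    refine ⟨?_, hc⟩
    have hcr : |(c : ℝ)| ≤ H := by exact_mod_cast hc
    rw [← Real.sqrt_sq_eq_abs]
    apply Real.sqrt_le_sqrt
    push_cast at hQ1
    rw [abs_le] at hQ1 hcr
    linarith [hQ1.1, hQ1.2, hcr.1, hcr.2]
  have h1 := Finset.card_le_card hsub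
  rw [card_product, Int.card_Icc, Int.card_Icc] at h1
  have h2 : ((H : ℤ) + 1 - -(H : ℤ)).toNat = 2 * H + 1 := by omega
  rw [h2] at h1
  have h3 : (((⌊Real.sqrt (2 * Q)⌋ + 1 - -⌊Real.sqrt (2 * Q)⌋).toNat : ℕ) : ℝ) ≤ 2 * Real.sqrt (2 * Q) + 1 := by
    have h4 : 0 ≤ ⌊Real.sqrt (2 * Q)⌋ := Int.floor_nonneg.2 (Real.sqrt_nonneg _)
    have h5 : ((⌊Real.sqrt (2 * Q)⌋ + 1 - -⌊Real.sqrt (2 * Q)⌋).toNat : ℤ) = 2 * ⌊Real.sqrt (2 * Q)⌋ + 1 := by
      rw [Int.toNat_of_nonneg (by omega)]; ring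
    have h6 : (((⌊Real.sqrt (2 * Q)⌋ + 1 - -⌊Real.sqrt (2 * Q)⌋).toNat : ℤ) : ℝ) =
        2 * (⌊Real.sqrt (2 * Q)⌋ : ℝ) + 1 := by
      rw [h5]; push_cast; ring
    rw [Int.cast_natCast] at h6
    rw [h6]
    linarith [Int.floor_le (Real.sqrt (2 * Q))]
  calc (((sq H).filter (fun p => |((4 * p.2 - p.1 ^ 2 : ℤ) : ℝ)| ≤ Q)).card : ℝ)
      ≤ (((⌊Real.sqrt (2 * Q)⌋ + 1 - -⌊Real.sqrt (2 * Q)⌋).toNat * (2 * H + 1) : ℕ) : ℝ) := by exact_mod_cast h1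
    _ = (((⌊Real.sqrt (2 * Q)⌋ + 1 - -⌊Real.sqrt (2 * Q)⌋).toNat : ℕ) : ℝ) * (2 * H + 1) := by push_cast; ring
    _ ≤ _ := by gcongr

end T9h23.Ha
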