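import Pool.Agent.T9h23.Ha.E1
import Pool.Agent.T9h23.Ha.E3

/-! # Hall's inequality at all values of almost all monic quadratic polynomials -/

set_option autoImplicit false

namespace T9h23.Ha

open Finset Filter Topology
open scoped Classical

theorem sum_inv (M : ℕ) (N : ℝ) (hM : (M : ℝ) ≤ N) (hN : 1 ≤ N) :
    ∑ k ∈ range (M + 1), (max |((k : ℤ) : ℝ)| 1)⁻¹ ≤ 2 + Real.log N := by
  rw [Finset.sum_range_succ']
  have h1 : ∑ k ∈ range M, (max |(((k + 1 : ℕ) : ℤ) : ℝ)| 1)⁻¹ = ((harmonic M : ℚ) : ℝ) := by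
    unfold harmonic
    push_cast
    refine Finset.sum_congr rfl fun k _ => ?_
    rw [abs_of_nonneg (by positivity), max_eq_left]
    have : (0 : ℝ) ≤ k := by positivity
    linarith
  rw [h1]
  have h2 := harmonic_le_one_add_log M
  have h3 : (max |(((0 : ℕ) : ℤ) : ℝ)| 1)⁻¹ = (1 : ℝ) := by simp
  rw [h3]
  have h4 : Real.log M ≤ Real.log N := by
    rcases Nat.eq_zero_or_pos M with h | h
    · rw [h]
      simp only [Nat.cast_zero, Real.log_zero]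
      exact Real.log_nonneg hN
    · exact Real.log_le_log (by exact_mod_cast h) hM
  linarith

theorem rpow_sqrt {h : ℝ} (hh : 0 < h) (e : ℝ) : Real.sqrt (h ^ e) = h ^ (e / 2) := by
  rw [Real.sqrt_eq_rpow, ← Real.rpow_mul hh.le]
  congr 1
  ring

/-- an exceptional value at a large argument is small -/
theorem value_range {δ : ℝ} (h0 : 0 < δ) (H : ℕ) (hH : 1 ≤ H) (N : ℝ) (hN : (H : ℝ) ≤ N)
    (hN2 : 10 * (H : ℝ) ^ 2 ≤ N ^ 2) (hN3 : (1000000 : ℝ) ≤ N) (p : ℤ × ℤ) (hp : p ∈ sq H)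
    (hR : 4 * p.2 - p.1 ^ 2 ≠ 0) (n : ℤ) (hn : N < |(n : ℝ)|) (hbad : BadX δ (qv p n)) :
    N ^ 2 / 8 ≤ (qv p n : ℝ) ∧ (qv p n : ℝ) ≤ 100 * (H : ℝ) ^ 6 := by
  obtain ⟨b, c⟩ := p
  rw [mem_sq] at hp
  dsimp only at hp hR
  set x : ℤ := qv (b, c) n with hx
  have hHr : (1 : ℝ) ≤ H := by exact_mod_cast hH
  have hbr : |(b : ℝ)| ≤ H := by exact_mod_cast hp.1
  have hcr : |(c : ℝ)| ≤ H := by exact_mod_cast hp.2
  set M : ℤ := 2 * n + b with hM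
  set R : ℤ := 4 * c - b ^ 2 with hR'
  have hid : 4 * x = M ^ 2 + R := by rw [hx, hM, hR']; unfold qv; ring
  have hidr : 4 * (x : ℝ) = (M : ℝ) ^ 2 + (R : ℝ) := by exact_mod_cast hid
  have hR5 : |(R : ℝ)| ≤ 5 * (H : ℝ) ^ 2 := by
    rw [hR']
    push_cast
    calc |4 * (c : ℝ) - (b : ℝ) ^ 2| ≤ |4 * (c : ℝ)| + |(b : ℝ) ^ 2| := abs_sub _ _
      _ = 4 * |(c : ℝ)| + |(b : ℝ)| ^ 2 := by rw [abs_mul, abs_pow]; norm_num
      _ ≤ 4 * H + (H : ℝ) ^ 2 := by gcongr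
      _ ≤ _ := by nlinarith
  have hMN : N ≤ |(M : ℝ)| := by
    rw [hM]
    push_cast
    have h1 : |2 * (n : ℝ)| ≤ |2 * (n : ℝ) + b| + |(b : ℝ)| := by
      have := abs_sub (2 * (n : ℝ) + b) b
      rwa [add_sub_cancel_right] at this
    rw [abs_mul] at h1
    norm_num at h1
    linarith
  have hM2 : N ^ 2 ≤ (M : ℝ) ^ 2 := by
    rw [← sq_abs (M : ℝ)]
    exact pow_le_pow_left₀ (by linarith) hMN 2
  have hxlow : N ^ 2 / 8 ≤ (x : ℝ) := by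
    have := (abs_le.1 hR5).1
    linarith
  refine ⟨hxlow, ?_⟩
  by_contra hcon
  push Not at hcon
  have hMbig : 250 * (H : ℝ) ^ 6 ≤ (M : ℝ) ^ 2 := by
    have := (abs_le.1 hR5).2
    have h6 : (H : ℝ) ^ 2 ≤ (H : ℝ) ^ 6 := pow_le_pow_right₀ hHr (by norm_num)
    nlinarith
  have hR3 : 2 * |R| ^ 3 ≤ M ^ 2 := by
    have h1 : |(R : ℝ)| ^ 3 ≤ (5 * (H : ℝ) ^ 2) ^ 3 := pow_le_pow_left₀ (abs_nonneg _) hR5 3
    have h2 : 2 * |(R : ℝ)| ^ 3 ≤ (M : ℝ) ^ 2 := by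
      have h3 : (5 * (H : ℝ) ^ 2) ^ 3 = 125 * (H : ℝ) ^ 6 := by ring
      linarith
    exact_mod_cast h2
  have hM6 : 1000000 ≤ |M| := by
    have : (1000000 : ℝ) ≤ |(M : ℝ)| := hN3.trans hMN
    exact_mod_cast this
  obtain ⟨y, -, hy⟩ := hbad
  have hel := elem x y M R hR hM6 hid hR3
  have helr : |(M : ℝ)| ≤ |(y : ℝ) ^ 2 - (x : ℝ) ^ 3| := by exact_mod_cast hel
  have hx1 : (1 : ℝ) ≤ x := by nlinarith
  have hxa : |(x : ℝ)| = x := abs_of_nonneg (by linarith)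
  have h1 : |(x : ℝ)| ^ (1 / 2 - δ) ≤ |(M : ℝ)| := by
    rw [hxa]
    calc (x : ℝ) ^ (1 / 2 - δ) ≤ (x : ℝ) ^ (1 / 2 : ℝ) :=
          Real.rpow_le_rpow_of_exponent_le hx1 (by linarith)
      _ = Real.sqrt x := by rw [Real.sqrt_eq_rpow]
      _ ≤ Real.sqrt ((M : ℝ) ^ 2) := by
          apply Real.sqrt_le_sqrt
          have := (abs_le.1 hR5).2
          linarith
      _ = _ := Real.sqrt_sq_eq_abs _
  linarith

/-- small arguments -/
theorem small_args {δ K γ : ℝ} (hK : 0 < K) (hγ0 : 0 ≤ γ) (hγ1 : γ ≤ 1 / 3) (hcount : ∀ X : ℝ, 1 ≤ X → ∀ U : Finset ℤ,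
    (∀ x ∈ U, |(x : ℝ)| ≤ X ∧ BadX δ x) → (U.card : ℝ) ≤ K * X ^ γ) (H : ℕ) (hH : 1 ≤ H) (N : ℝ) (hN : (H : ℝ) ≤ N) :
    (((sq H).filter (fun p => ∃ n : ℤ, |(n : ℝ)| ≤ N ∧ BadX δ (qv p n))).card : ℝ) ≤
      6 * K * N ^ (5 / 3 : ℝ) * (8 + 3 * Real.log N) := by
  have hHr : (1 : ℝ) ≤ H := by exact_mod_cast hH
  have hN1 : 1 ≤ N := by linarith
  have hN0 : 0 < N := by linarith
  set M : ℕ := ⌊N⌋₊ with hM
  have hMN : (M : ℝ) ≤ N := Nat.floor_le hN0.le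
  set S : ℤ → Finset (ℤ × ℤ) := fun n => (sq H).filter (fun p => BadX δ (qv p n)) with hS
  have hsub : (sq H).filter (fun p => ∃ n : ℤ, |(n : ℝ)| ≤ N ∧ BadX δ (qv p n)) ⊆
      (range (M + 1)).biUnion (fun k : ℕ => S (k : ℤ) ∪ S (-(k : ℤ))) := by
    intro p hp
    rw [mem_filter] at hp
    obtain ⟨hp1, n, hn, hbad⟩ := hp
    rw [mem_biUnion]
    refine ⟨n.natAbs, ?_, ?_⟩
    · rw [mem_range, Nat.lt_succ_iff]
      apply Nat.le_floor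
      rw [Nat.cast_natAbs, Int.cast_abs]
      exact hn
    · rw [mem_union]
      rcases Int.natAbs_eq n with h | h
      · left
        rw [← h, hS, mem_filter]
        exact ⟨hp1, hbad⟩
      · right
        rw [← h, hS, mem_filter]
        exact ⟨hp1, hbad⟩
  set b : ℕ → ℝ := fun k => K * (3 * N ^ (2 / 3 : ℝ)) * (3 * N * (max |((k : ℤ) : ℝ)| 1)⁻¹ + 1) with hb
  have hP : ∀ m : ℝ, 1 ≤ m → m ≤ N → (m ^ 2 + 2 * H * m) ^ γ ≤ 3 * N ^ (2 / 3 : ℝ) := by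
    intro m hm1 hmN
    have h1 : m ^ 2 + 2 * H * m ≤ 3 * N ^ 2 := by nlinarith
    have h2 : 1 ≤ m ^ 2 + 2 * H * m := by nlinarith
    calc (m ^ 2 + 2 * H * m) ^ γ ≤ (3 * N ^ 2) ^ γ := Real.rpow_le_rpow (by positivity) h1 hγ0
      _ ≤ (3 * N ^ 2) ^ (1 / 3 : ℝ) := Real.rpow_le_rpow_of_exponent_le (by linarith) hγ1
      _ = (3 : ℝ) ^ (1 / 3 : ℝ) * N ^ (2 / 3 : ℝ) := by
          rw [Real.mul_rpow (by norm_num) (by positivity), ← Real.rpow_natCast N 2, ← Real.rpow_mul hN0.le]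
          norm_num
      _ ≤ 3 * N ^ (2 / 3 : ℝ) := by
          have : (3 : ℝ) ^ (1 / 3 : ℝ) ≤ 3 := by
            calc (3 : ℝ) ^ (1 / 3 : ℝ) ≤ (3 : ℝ) ^ (1 : ℝ) :=
                  Real.rpow_le_rpow_of_exponent_le (by norm_num) (by norm_num)
              _ = 3 := Real.rpow_one _
          gcongr
  have hSb : ∀ k ∈ range (M + 1), ((S (k : ℤ)).card : ℝ) ≤ b k ∧ ((S (-(k : ℤ))).card : ℝ) ≤ b k := by
    intro k hk
    rw [mem_range] at hk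
    have hkN : max |((k : ℤ) : ℝ)| 1 ≤ N := by
      apply max_le _ hN1
      rw [Int.cast_natCast, abs_of_nonneg (by positivity)]
      have : (k : ℝ) ≤ M := by exact_mod_cast (by omega : k ≤ M)
      linarith
    have hk1 : 1 ≤ max |((k : ℤ) : ℝ)| 1 := le_max_right _ _
    set m : ℝ := max |((k : ℤ) : ℝ)| 1 with hm
    have hm0 : 0 < m := by linarith
    have h1 := hP m hk1 hkN
    have hbd : (K * (m ^ 2 + 2 * H * m) ^ γ) * ((2 * H + 1) / m + 1) ≤ b k := by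
      rw [hb]
      have h2 : (2 * (H : ℝ) + 1) / m ≤ 3 * N * m⁻¹ := by
        rw [div_eq_mul_inv]
        gcongr
        linarith
      dsimp only
      gcongr
    have g1 := per_n hcount H hH (k : ℤ)
    have g2 := per_n hcount H hH (-(k : ℤ))
    rw [show |((-(k : ℤ) : ℤ) : ℝ)| = |((k : ℤ) : ℝ)| by rw [Int.cast_neg, abs_neg]] at g2
    exact ⟨g1.trans hbd, g2.trans hbd⟩
  have hsum1 : (((range (M + 1)).biUnion (fun k : ℕ => S (k : ℤ) ∪ S (-(k : ℤ)))).card : ℝ) ≤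
      ∑ k ∈ range (M + 1), 2 * b k := by
    have h1 : (((range (M + 1)).biUnion (fun k : ℕ => S (k : ℤ) ∪ S (-(k : ℤ)))).card : ℝ) ≤
        ∑ k ∈ range (M + 1), ((S (k : ℤ) ∪ S (-(k : ℤ))).card : ℝ) := by
      exact_mod_cast Finset.card_biUnion_le
    refine h1.trans (Finset.sum_le_sum fun k hk => ?_)
    have h2 : ((S (k : ℤ) ∪ S (-(k : ℤ))).card : ℝ) ≤ (S (k : ℤ)).card + (S (-(k : ℤ))).card := by
      exact_mod_cast Finset.card_union_le _ _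
    have h3 := hSb k hk
    linarith [h3.1, h3.2]
  have hsum2 : ∑ k ∈ range (M + 1), 2 * b k = 2 * (K * (3 * N ^ (2 / 3 : ℝ))) * (3 * N *
      ∑ k ∈ range (M + 1), (max |((k : ℤ) : ℝ)| 1)⁻¹ + (M + 1)) := by
    rw [hb]
    simp only
    rw [← mul_sum, ← mul_sum, sum_add_distrib, ← mul_sum, sum_const, card_range, nsmul_eq_mul]
    push_cast
    ring
  have hsum3 := sum_inv M N hMN hN1
  have hlog : 0 ≤ Real.log N := Real.log_nonneg hN1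
  have hN53 : N ^ (2 / 3 : ℝ) * N = N ^ (5 / 3 : ℝ) := by
    nth_rewrite 2 [← Real.rpow_one N]
    rw [← Real.rpow_add hN0]
    norm_num
  calc (((sq H).filter (fun p => ∃ n : ℤ, |(n : ℝ)| ≤ N ∧ BadX δ (qv p n))).card : ℝ)
      ≤ (((range (M + 1)).biUnion (fun k : ℕ => S (k : ℤ) ∪ S (-(k : ℤ)))).card : ℝ) := by
        exact_mod_cast Finset.card_le_card hsub
    _ ≤ _ := hsum1
    _ = _ := hsum2
    _ ≤ 2 * (K * (3 * N ^ (2 / 3 : ℝ))) * (3 * N * (2 + Real.log N) + 2 * N) := by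
        gcongr
        linarith
    _ = 6 * K * (N ^ (2 / 3 : ℝ) * N) * (8 + 3 * Real.log N) := by ring
    _ = _ := by rw [hN53]

end T9h23.Ha
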