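import Pool.Agent.T9h23.Ha.E4

/-! # Hall's inequality at all values of almost all monic quadratic polynomials: the final count -/

set_option autoImplicit false

namespace T9h23.Ha

open Finset Filter Topology
open scoped Classical

theorem ev_rpow (C a b : ℝ) (hab : a < b) : ∀ᶠ H : ℕ in atTop, C * (H : ℝ) ^ a ≤ (H : ℝ) ^ b := by
  have h1 : (fun x : ℝ => C * x ^ a) =o[atTop] (fun x : ℝ => x ^ b) := by
    apply Asymptotics.IsLittleO.const_mul_left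
    have h0 : (fun _ : ℝ => (1 : ℝ)) =o[atTop] (fun x : ℝ => x ^ (b - a)) :=
      Asymptotics.isLittleO_const_left.2 (Or.inr (by
        have := tendsto_rpow_atTop (show 0 < b - a by linarith)
        exact tendsto_norm_atTop_atTop.comp this))
    have h2 := (Asymptotics.isBigO_refl (fun x : ℝ => x ^ a) atTop).mul_isLittleO h0
    refine h2.congr' ?_ ?_
    · exact Eventually.of_forall fun x => mul_one _
    · filter_upwards [eventually_gt_atTop (0 : ℝ)] with x hx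
      rw [← Real.rpow_add hx]
      congr 1
      ring
  have h2 := tendsto_natCast_atTop_atTop.eventually ((h1.def one_pos).and (eventually_ge_atTop (1 : ℝ)))
  filter_upwards [h2] with H hH
  obtain ⟨g1, g2⟩ := hH
  rw [one_mul, Real.norm_eq_abs, Real.norm_eq_abs, abs_of_nonneg (show (0 : ℝ) ≤ (H : ℝ) ^ b by positivity)] at g1
  exact (le_abs_self _).trans g1

theorem ev_rpow_log (C D a b : ℝ) (hab : a < b) :
    ∀ᶠ H : ℕ in atTop, C * (H : ℝ) ^ a * (8 + D * Real.log H) ≤ (H : ℝ) ^ b := by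
  have hc : a < (a + b) / 2 := by linarith
  have hd : (a + b) / 2 < b := by linarith
  have hl : (fun x : ℝ => 8 + D * Real.log x) =o[atTop] (fun x : ℝ => x ^ ((b - a) / 2)) := by
    have h2 : (fun x : ℝ => D * Real.log x) =o[atTop] (fun x : ℝ => x ^ ((b - a) / 2)) :=
      (isLittleO_log_rpow_atTop (by linarith)).const_mul_left D
    have h3 : (fun _ : ℝ => (8 : ℝ)) =o[atTop] (fun x : ℝ => x ^ ((b - a) / 2)) :=
      Asymptotics.isLittleO_const_left.2 (Or.inr (by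
        have := tendsto_rpow_atTop (show 0 < (b - a) / 2 by linarith)
        exact tendsto_norm_atTop_atTop.comp this))
    exact h3.add h2
  have h2 := tendsto_natCast_atTop_atTop.eventually ((hl.def one_pos).and (eventually_ge_atTop (1 : ℝ)))
  filter_upwards [h2, ev_rpow |C| ((a + b) / 2) b hd] with H hH hH2
  obtain ⟨g1, g2⟩ := hH
  have hH0 : (0 : ℝ) < H := by linarith
  rw [one_mul, Real.norm_eq_abs, Real.norm_eq_abs,
    abs_of_nonneg (show (0 : ℝ) ≤ (H : ℝ) ^ ((b - a) / 2) by positivity)] at g1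
  calc C * (H : ℝ) ^ a * (8 + D * Real.log H) ≤ |C * (H : ℝ) ^ a * (8 + D * Real.log H)| := le_abs_self _
    _ = |C| * (H : ℝ) ^ a * |8 + D * Real.log H| := by
        rw [abs_mul, abs_mul, abs_of_nonneg (show (0 : ℝ) ≤ (H : ℝ) ^ a by positivity)]
    _ ≤ |C| * (H : ℝ) ^ a * (H : ℝ) ^ ((b - a) / 2) := by gcongr
    _ = |C| * (H : ℝ) ^ ((a + b) / 2) := by
        rw [mul_assoc, ← Real.rpow_add hH0]
        congr 2
        ring
    _ ≤ _ := hH2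

/-- one range -/
theorem range_card2 {δ K γ : ℝ} (hK : 0 < K) (hδ1 : δ ≤ 1 / 2)
    (hcount : ∀ X : ℝ, 1 ≤ X → ∀ U : Finset ℤ,
    (∀ x ∈ U, |(x : ℝ)| ≤ X ∧ BadX δ x) → (U.card : ℝ) ≤ K * X ^ γ) (H : ℕ) (hH : 1 ≤ H) (hδ0 : 0 < δ)
    (Xa Xb s t : ℝ) (hQ : 8 * (H : ℝ) ≤ (H : ℝ) ^ (2 - δ / 20)) (hXa : 5 * (H : ℝ) ^ 2 ≤ 3 * Xa) (hXb : Xa ≤ Xb)
    (hs : 10 * (H : ℝ) ^ 2 / Real.sqrt Xa + 2 ≤ s) (ht : Xb ^ γ ≤ t) :
    (((sq H).filter (fun p => (H : ℝ) ^ (2 - δ / 20) < |((4 * p.2 - p.1 ^ 2 : ℤ) : ℝ)| ∧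
      ∃ n : ℤ, BadX δ (qv p n) ∧ Xa ≤ (qv p n : ℝ) ∧ (qv p n : ℝ) ≤ Xb)).card : ℝ) ≤
      14 * K * t * s * (H : ℝ) ^ (δ / 40) := by
  have hHr : (1 : ℝ) ≤ H := by exact_mod_cast hH
  have hH0 : (0 : ℝ) < H := by linarith
  have h1 := range_card hcount H hH ((H : ℝ) ^ (2 - δ / 20)) Xa Xb hQ hXa hXb
  refine h1.trans ?_
  have h2 : 8 * (H : ℝ) / Real.sqrt ((H : ℝ) ^ (2 - δ / 20) / 2) + 2 ≤ 14 * (H : ℝ) ^ (δ / 40) := by
    have e1 : Real.sqrt ((H : ℝ) ^ (2 - δ / 20) / 2) = (H : ℝ) ^ (1 - δ / 40) / Real.sqrt 2 := by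
      rw [Real.sqrt_div (by positivity), rpow_sqrt hH0]
      congr 2
      ring
    rw [e1]
    have e2 : (H : ℝ) ^ (δ / 40) * (H : ℝ) ^ (1 - δ / 40) = H := by
      rw [← Real.rpow_add hH0]
      rw [show δ / 40 + (1 - δ / 40) = 1 by ring, Real.rpow_one]
    have e3 : 0 < (H : ℝ) ^ (1 - δ / 40) := Real.rpow_pos_of_pos hH0 _
    have e4 : 8 * (H : ℝ) / ((H : ℝ) ^ (1 - δ / 40) / Real.sqrt 2) = 8 * Real.sqrt 2 * (H : ℝ) ^ (δ / 40) := by
      rw [div_div_eq_mul_div, div_eq_iff e3.ne']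
      nth_rewrite 1 [← e2]
      ring
    rw [e4]
    have e5 : Real.sqrt 2 ≤ 1.5 := by
      rw [Real.sqrt_le_left (by norm_num)]
      norm_num
    have e6 : 1 ≤ (H : ℝ) ^ (δ / 40) := Real.one_le_rpow hHr (by positivity)
    nlinarith
  have h3 : 0 ≤ 10 * (H : ℝ) ^ 2 / Real.sqrt Xa + 2 := by positivity
  have hXb0 : 0 ≤ Xb := by nlinarith
  have h4 : 0 ≤ Xb ^ γ := Real.rpow_nonneg hXb0 _
  have h5 : 0 ≤ t := h4.trans ht
  have h6 : 0 ≤ K * t := mul_nonneg hK.le h5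
  have h7 : 0 ≤ s := h3.trans hs
  calc (K * Xb ^ γ) * ((10 * (H : ℝ) ^ 2 / Real.sqrt Xa + 2) *
        (8 * (H : ℝ) / Real.sqrt ((H : ℝ) ^ (2 - δ / 20) / 2) + 2))
      ≤ (K * t) * (s * (14 * (H : ℝ) ^ (δ / 40))) := by gcongr
    _ = _ := by ring

theorem quadratics (δ : ℝ) (hδ0 : 0 < δ) (hδ1 : δ ≤ 1 / 2) : ∃ H0 : ℕ, ∀ H : ℕ, H0 ≤ H →
    (((sq H).filter (fun p => ∃ n : ℤ, BadX δ (qv p n))).card : ℝ) ≤ (H : ℝ) ^ (2 - δ / 80) := by
  obtain ⟨K, hK, hcount⟩ := countX δ hδ0 hδ1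
  have hγ0 : 0 ≤ 1 / 3 - δ / 12 := by linarith
  have hγ1 : 1 / 3 - δ / 12 ≤ 1 / 3 := by linarith
  have hb : (2 : ℝ) - δ / 40 < 2 - δ / 80 := by linarith
  have hev := (((ev_rpow_log (6 * K) (33 / 10) (11 / 6) (2 - δ / 40) (by linarith)).and
    (ev_rpow (12 + 1 + 448 * K + 168 * K + 16800 * K) (2 - δ / 40) (2 - δ / 80) hb)).and
    ((ev_rpow 8 1 (2 - δ / 20) (by linarith)).and (ev_rpow 20 2 (22 / 10) (by norm_num)))).and
    ((ev_rpow 1000000 0 (11 / 10) (by norm_num)).and ((ev_rpow 1 (22/10) (46/10) (by norm_num)).and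
      (eventually_ge_atTop 1)))
  obtain ⟨H0, hH0⟩ := eventually_atTop.1 hev
  refine ⟨H0, ?_⟩
  intro H hH
  obtain ⟨⟨⟨k1, k2⟩, k3, k4⟩, k5, _, k7⟩ := hH0 H hH
  have hHr : (1 : ℝ) ≤ H := by exact_mod_cast k7
  have hHpos : (0 : ℝ) < H := by linarith
  rw [Real.rpow_zero, mul_one] at k5
  rw [Real.rpow_one] at k3
  set N : ℝ := (H : ℝ) ^ (11 / 10 : ℝ) with hN
  have hNH : (H : ℝ) ≤ N := by
    rw [hN]
    calc (H : ℝ) = (H : ℝ) ^ (1 : ℝ) := (Real.rpow_one _).symm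
      _ ≤ _ := Real.rpow_le_rpow_of_exponent_le hHr (by norm_num)
  have hNpos : 0 < N := by linarith
  have hNsq : N ^ 2 = (H : ℝ) ^ (22 / 10 : ℝ) := by
    rw [hN, ← Real.rpow_natCast, ← Real.rpow_mul hHpos.le]
    norm_num
  have hH2 : (H : ℝ) ^ (2 : ℝ) = (H : ℝ) ^ 2 := by
    rw [← Real.rpow_natCast]; norm_num
  rw [hH2] at k4
  have hN2 : 20 * (H : ℝ) ^ 2 ≤ N ^ 2 := by rw [hNsq]; exact k4
  set Q : ℝ := (H : ℝ) ^ (2 - δ / 20) with hQ
  have hQ1 : 1 ≤ Q := Real.one_le_rpow hHr (by linarith)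
  -- the five sets
  set S0 := (sq H).filter (fun p => |((4 * p.2 - p.1 ^ 2 : ℤ) : ℝ)| ≤ Q) with hS0
  set S1 := (sq H).filter (fun p => ∃ n : ℤ, |(n : ℝ)| ≤ N ∧ BadX δ (qv p n)) with hS1
  set S2 : ℝ → ℝ → Finset (ℤ × ℤ) := fun Xa Xb => (sq H).filter (fun p => Q < |((4 * p.2 - p.1 ^ 2 : ℤ) : ℝ)| ∧
      ∃ n : ℤ, BadX δ (qv p n) ∧ Xa ≤ (qv p n : ℝ) ∧ (qv p n : ℝ) ≤ Xb) with hS2
  set X0 : ℝ := N ^ 2 / 8 with hX0
  set X1 : ℝ := (H : ℝ) ^ (32 / 10 : ℝ) with hX1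
  set X2 : ℝ := (H : ℝ) ^ (46 / 10 : ℝ) with hX2
  set X3 : ℝ := 100 * (H : ℝ) ^ 6 with hX3
  have hsub : (sq H).filter (fun p => ∃ n : ℤ, BadX δ (qv p n)) ⊆
      S0 ∪ (S1 ∪ (S2 X0 X1 ∪ (S2 X1 X2 ∪ S2 X2 X3))) := by
    intro p hp
    rw [mem_filter] at hp
    obtain ⟨hp1, n, hn⟩ := hp
    rw [mem_union, mem_union, mem_union, mem_union]
    by_cases c1 : |((4 * p.2 - p.1 ^ 2 : ℤ) : ℝ)| ≤ Q
    · left
      rw [hS0, mem_filter]
      exact ⟨hp1, c1⟩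
    push Not at c1
    right
    by_cases c2 : |(n : ℝ)| ≤ N
    · left
      rw [hS1, mem_filter]
      exact ⟨hp1, n, c2, hn⟩
    push Not at c2
    right
    have hR : 4 * p.2 - p.1 ^ 2 ≠ 0 := by
      intro h
      rw [h] at c1
      simp only [Int.cast_zero, abs_zero] at c1
      linarith
    obtain ⟨r1, r2⟩ := value_range hδ0 H k7 N hNH (by linarith [sq_nonneg (H : ℝ)]) k5 p hp1 hR n c2 hn
    rcases le_total ((qv p n : ℤ) : ℝ) X1 with c3 | c3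
    · left
      rw [hS2]
      dsimp only
      rw [mem_filter]
      exact ⟨hp1, c1, n, hn, r1, c3⟩
    · right
      rcases le_total ((qv p n : ℤ) : ℝ) X2 with c4 | c4
      · left
        rw [hS2]
        dsimp only
        rw [mem_filter]
        exact ⟨hp1, c1, n, hn, c3, c4⟩
      · right
        rw [hS2]
        dsimp only
        rw [mem_filter]
        exact ⟨hp1, c1, n, hn, c4, r2⟩
  -- the counts
  have b0 : (S0.card : ℝ) ≤ 12 * (H : ℝ) ^ (2 - δ / 40) := by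
    have h1 := small_disc H k7 Q (by linarith)
    refine h1.trans ?_
    have e1 : Real.sqrt (2 * Q) = Real.sqrt 2 * (H : ℝ) ^ (1 - δ / 40) := by
      rw [Real.sqrt_mul (by norm_num), hQ, rpow_sqrt hHpos]
      congr 2
      ring
    have e5 : Real.sqrt 2 ≤ 1.5 := by
      rw [Real.sqrt_le_left (by norm_num)]
      norm_num
    have e6 : 1 ≤ (H : ℝ) ^ (1 - δ / 40) := Real.one_le_rpow hHr (by linarith)
    have e7 : (H : ℝ) ^ (1 - δ / 40) * H = (H : ℝ) ^ (2 - δ / 40) := by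
      nth_rewrite 2 [← Real.rpow_one (H : ℝ)]
      rw [← Real.rpow_add hHpos]
      congr 1
      ring
    rw [e1, ← e7]
    have e8 : 2 * (Real.sqrt 2 * (H : ℝ) ^ (1 - δ / 40)) + 1 ≤ 4 * (H : ℝ) ^ (1 - δ / 40) := by nlinarith
    calc (2 * (Real.sqrt 2 * (H : ℝ) ^ (1 - δ / 40)) + 1) * (2 * (H : ℝ) + 1)
        ≤ (4 * (H : ℝ) ^ (1 - δ / 40)) * (3 * H) := by
          gcongr
          linarith
      _ = _ := by ring
  have b1 : (S1.card : ℝ) ≤ 1 * (H : ℝ) ^ (2 - δ / 40) := by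
    have h1 := small_args hK hγ0 hγ1 hcount H k7 N hNH
    refine h1.trans ?_
    have e1 : N ^ (5 / 3 : ℝ) = (H : ℝ) ^ (11 / 6 : ℝ) := by
      rw [hN, ← Real.rpow_mul hHpos.le]
      norm_num
    have e2 : 3 * Real.log N = 33 / 10 * Real.log H := by
      rw [hN, Real.log_rpow hHpos]; ring
    rw [e1, e2, one_mul]
    exact k1
  have b2 : ((S2 X0 X1).card : ℝ) ≤ 448 * K * (H : ℝ) ^ (2 - δ / 40) := by
    have hs : 10 * (H : ℝ) ^ 2 / Real.sqrt X0 + 2 ≤ 32 * (H : ℝ) ^ (9 / 10 : ℝ) := by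
      have e1 : Real.sqrt X0 = N / Real.sqrt 8 := by
        rw [hX0, Real.sqrt_div (by positivity), Real.sqrt_sq hNpos.le]
      have e2 : Real.sqrt 8 ≤ 3 := by
        rw [Real.sqrt_le_left (by norm_num)]
        norm_num
      have e3 : N / 3 ≤ Real.sqrt X0 := by
        rw [e1]
        gcongr
      have e4 : (H : ℝ) ^ (9 / 10 : ℝ) * N = (H : ℝ) ^ 2 := by
        rw [hN, ← Real.rpow_add hHpos, ← hH2]
        norm_num
      have e5 : 1 ≤ (H : ℝ) ^ (9 / 10 : ℝ) := Real.one_le_rpow hHr (by norm_num)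
      have e6 : 10 * (H : ℝ) ^ 2 / Real.sqrt X0 ≤ 30 * (H : ℝ) ^ (9 / 10 : ℝ) := by
        rw [div_le_iff₀ (lt_of_lt_of_le (by positivity) e3)]
        calc 10 * (H : ℝ) ^ 2 = 30 * (H : ℝ) ^ (9 / 10 : ℝ) * (N / 3) := by rw [← e4]; ring
          _ ≤ _ := by gcongr
      linarith
    have ht : X1 ^ (1 / 3 - δ / 12) ≤ (H : ℝ) ^ (32 / 30 : ℝ) := by
      rw [hX1, ← Real.rpow_mul hHpos.le]
      apply Real.rpow_le_rpow_of_exponent_le hHr
      linarith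
    have hX01 : X0 ≤ X1 := by
      rw [hX0, hNsq, hX1]
      have : (H : ℝ) ^ (22 / 10 : ℝ) ≤ (H : ℝ) ^ (32 / 10 : ℝ) :=
        Real.rpow_le_rpow_of_exponent_le hHr (by norm_num)
      have h0 : 0 ≤ (H : ℝ) ^ (22 / 10 : ℝ) := by positivity
      linarith
    have h1 := range_card2 hK hδ1 hcount H k7 hδ0 X0 X1 _ _ k3 (by rw [hX0]; linarith [sq_nonneg (H : ℝ)]) hX01 hs ht
    refine h1.trans ?_
    have e7 : 14 * K * (H : ℝ) ^ (32 / 30 : ℝ) * (32 * (H : ℝ) ^ (9 / 10 : ℝ)) * (H : ℝ) ^ (δ / 40) =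
        448 * K * (H : ℝ) ^ (32 / 30 + 9 / 10 + δ / 40 : ℝ) := by
      rw [Real.rpow_add hHpos, Real.rpow_add hHpos]; ring
    rw [e7]
    gcongr
    linarith
  have b3 : ((S2 X1 X2).card : ℝ) ≤ 168 * K * (H : ℝ) ^ (2 - δ / 40) := by
    have hs : 10 * (H : ℝ) ^ 2 / Real.sqrt X1 + 2 ≤ 12 * (H : ℝ) ^ (4 / 10 : ℝ) := by
      have e1 : Real.sqrt X1 = (H : ℝ) ^ (16 / 10 : ℝ) := by
        rw [hX1, rpow_sqrt hHpos]; norm_num
      have e4 : (H : ℝ) ^ (4 / 10 : ℝ) * (H : ℝ) ^ (16 / 10 : ℝ) = (H : ℝ) ^ 2 := by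
        rw [← Real.rpow_add hHpos, ← hH2]
        norm_num
      have e5 : 1 ≤ (H : ℝ) ^ (4 / 10 : ℝ) := Real.one_le_rpow hHr (by norm_num)
      have e6 : 10 * (H : ℝ) ^ 2 / Real.sqrt X1 = 10 * (H : ℝ) ^ (4 / 10 : ℝ) := by
        rw [e1, div_eq_iff (by positivity), ← e4]; ring
      rw [e6]
      linarith
    have ht : X2 ^ (1 / 3 - δ / 12) ≤ (H : ℝ) ^ (46 / 30 : ℝ) := by
      rw [hX2, ← Real.rpow_mul hHpos.le]
      apply Real.rpow_le_rpow_of_exponent_le hHr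
      linarith
    have hX12 : X1 ≤ X2 := Real.rpow_le_rpow_of_exponent_le hHr (by norm_num)
    have hXa : 5 * (H : ℝ) ^ 2 ≤ 3 * X1 := by
      have : (H : ℝ) ^ (22 / 10 : ℝ) ≤ X1 := Real.rpow_le_rpow_of_exponent_le hHr (by norm_num)
      nlinarith
    have h1 := range_card2 hK hδ1 hcount H k7 hδ0 X1 X2 _ _ k3 hXa hX12 hs ht
    refine h1.trans ?_
    have e7 : 14 * K * (H : ℝ) ^ (46 / 30 : ℝ) * (12 * (H : ℝ) ^ (4 / 10 : ℝ)) * (H : ℝ) ^ (δ / 40) =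
        168 * K * (H : ℝ) ^ (46 / 30 + 4 / 10 + δ / 40 : ℝ) := by
      rw [Real.rpow_add hHpos, Real.rpow_add hHpos]; ring
    rw [e7]
    gcongr
    linarith
  have b4 : ((S2 X2 X3).card : ℝ) ≤ 16800 * K * (H : ℝ) ^ (2 - δ / 40) := by
    have hs : 10 * (H : ℝ) ^ 2 / Real.sqrt X2 + 2 ≤ 12 := by
      have e1 : Real.sqrt X2 = (H : ℝ) ^ (23 / 10 : ℝ) := by
        rw [hX2, rpow_sqrt hHpos]; norm_num
      have e4 : (H : ℝ) ^ 2 ≤ (H : ℝ) ^ (23 / 10 : ℝ) := by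
        rw [← hH2]
        exact Real.rpow_le_rpow_of_exponent_le hHr (by norm_num)
      have e6 : 10 * (H : ℝ) ^ 2 / Real.sqrt X2 ≤ 10 := by
        rw [e1, div_le_iff₀ (by positivity)]
        linarith
      linarith
    have ht : X3 ^ (1 / 3 - δ / 12) ≤ 100 * (H : ℝ) ^ (2 - δ / 2) := by
      rw [hX3, Real.mul_rpow (by norm_num) (by positivity), ← Real.rpow_natCast (H : ℝ) 6, ← Real.rpow_mul hHpos.le]
      have e1 : (100 : ℝ) ^ (1 / 3 - δ / 12) ≤ 100 := by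
        calc (100 : ℝ) ^ (1 / 3 - δ / 12) ≤ (100 : ℝ) ^ (1 : ℝ) :=
              Real.rpow_le_rpow_of_exponent_le (by norm_num) (by linarith)
          _ = 100 := Real.rpow_one _
      have e2 : ((6 : ℕ) : ℝ) * (1 / 3 - δ / 12) = 2 - δ / 2 := by push_cast; ring
      rw [e2]
      gcongr
    have hX23 : X2 ≤ X3 := by
      rw [hX2, hX3]
      have : (H : ℝ) ^ (46 / 10 : ℝ) ≤ (H : ℝ) ^ (6 : ℝ) :=
        Real.rpow_le_rpow_of_exponent_le hHr (by norm_num)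
      have e2 : (H : ℝ) ^ (6 : ℝ) = (H : ℝ) ^ 6 := by
        rw [← Real.rpow_natCast]; norm_num
      rw [e2] at this
      have h0 : 0 ≤ (H : ℝ) ^ 6 := by positivity
      linarith
    have hXa : 5 * (H : ℝ) ^ 2 ≤ 3 * X2 := by
      have : (H : ℝ) ^ (22 / 10 : ℝ) ≤ X2 := Real.rpow_le_rpow_of_exponent_le hHr (by norm_num)
      nlinarith
    have h1 := range_card2 hK hδ1 hcount H k7 hδ0 X2 X3 _ _ k3 hXa hX23 hs ht
    refine h1.trans ?_
    have e7 : 14 * K * (100 * (H : ℝ) ^ (2 - δ / 2)) * 12 * (H : ℝ) ^ (δ / 40) =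
        16800 * K * (H : ℝ) ^ (2 - δ / 2 + δ / 40) := by
      rw [Real.rpow_add hHpos]; ring
    rw [e7]
    gcongr
    linarith
  have hfin := (Finset.card_le_card hsub).trans ((Finset.card_union_le _ _).trans
    (Nat.add_le_add_left ((Finset.card_union_le _ _).trans (Nat.add_le_add_left
      ((Finset.card_union_le _ _).trans (Nat.add_le_add_left (Finset.card_union_le _ _) _)) _)) _))
  have hfin' : (((sq H).filter (fun p => ∃ n : ℤ, BadX δ (qv p n))).card : ℝ) ≤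
      (S0.card : ℝ) + ((S1.card : ℝ) + (((S2 X0 X1).card : ℝ) + (((S2 X1 X2).card : ℝ) + ((S2 X2 X3).card : ℝ)))) := by
    exact_mod_cast hfin
  refine hfin'.trans (le_trans ?_ k2)
  have : (12 + 1 + 448 * K + 168 * K + 16800 * K) * (H : ℝ) ^ (2 - δ / 40) =
      12 * (H : ℝ) ^ (2 - δ / 40) + (1 * (H : ℝ) ^ (2 - δ / 40) + (448 * K * (H : ℝ) ^ (2 - δ / 40) +
        (168 * K * (H : ℝ) ^ (2 - δ / 40) + 16800 * K * (H : ℝ) ^ (2 - δ / 40)))) := by ring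
  rw [this]
  linarith

end T9h23.Ha
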