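import Mathlib

/-! # Hall's inequality for `y` close to a cube in the sense of polynomials -/

set_option autoImplicit false

namespace T9h23.Ha

theorem elemY0 (x y t P Q h : ℤ) (hh : 30 ≤ h) (ht : 100 * h ^ 3 ≤ t) (hP : |P| ≤ 4 * h ^ 2)
    (hQ1 : h ^ 2 ≤ |Q|) (hQ2 : |Q| ≤ 3 * h ^ 3) (hy : 27 * y = t ^ 3 + P * t + Q) :
    |x| ≤ |y ^ 2 - x ^ 3| := by
  obtain ⟨p, hp⟩ : ∃ p : ℤ, p = |P| := ⟨_, rfl⟩
  obtain ⟨q, hq⟩ : ∃ q : ℤ, q = |Q| := ⟨_, rfl⟩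
  rw [← hp] at hP
  rw [← hq] at hQ1 hQ2
  have hp0 : 0 ≤ p := by rw [hp]; exact abs_nonneg P
  have hq0 : 0 ≤ q := by rw [hq]; exact abs_nonneg Q
  have hh2 : 900 ≤ h ^ 2 := by nlinarith
  have hh3 : 30 * h ^ 2 ≤ h ^ 3 := by nlinarith [sq_nonneg h]
  have ht1 : 3000 * h ^ 2 ≤ t := by linarith
  have ht2 : 2700000 ≤ t := by linarith
  have ht0 : 0 < t := by linarith
  have htt : 2700000 * t ≤ t ^ 2 := by nlinarith
  have htt0 : 0 < t ^ 2 := by positivity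
  have htt3 : t ^ 3 = t ^ 2 * t := by ring
  have htt4 : t ^ 4 = t ^ 2 * t ^ 2 := by ring
  have h2pos : 0 < h ^ 2 := by linarith
  have h3pos : 0 < h ^ 3 := by linarith
  -- powers of h
  have h4 : h ^ 4 = h ^ 2 * h ^ 2 := by ring
  have h6 : h ^ 6 = h ^ 3 * h ^ 3 := by ring
  have h5 : h ^ 5 = h ^ 2 * h ^ 3 := by ring
  have hh4 : 9000000 * h ^ 4 ≤ t ^ 2 := by
    have h1 : (3000 * h ^ 2) * (3000 * h ^ 2) ≤ t * t := mul_le_mul ht1 ht1 (by positivity) ht0.le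
    nlinarith
  have hh6 : 10000 * h ^ 6 ≤ t ^ 2 := by
    have h1 : (100 * h ^ 3) * (100 * h ^ 3) ≤ t * t := mul_le_mul ht ht (by positivity) ht0.le
    nlinarith
  -- the error terms
  have e1 : 9 * P ^ 2 * t ^ 2 ≤ 144 * h ^ 4 * t ^ 2 := by
    have h1 : P ^ 2 ≤ (4 * h ^ 2) ^ 2 := by
      rw [← sq_abs P, ← hp]
      exact pow_le_pow_left₀ hp0 hP 2
    have h2 : P ^ 2 * t ^ 2 ≤ (4 * h ^ 2) ^ 2 * t ^ 2 := mul_le_mul_of_nonneg_right h1 htt0.le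
    nlinarith
  have e1' : 0 ≤ 9 * P ^ 2 * t ^ 2 := by positivity
  have hPQ : |P * Q| ≤ 4 * h ^ 2 * q := by
    rw [abs_mul, ← hp, ← hq]
    exact mul_le_mul_of_nonneg_right hP hq0
  have e2 : |54 * P * Q * t| ≤ 216 * h ^ 2 * q * t := by
    have h1 : 54 * P * Q * t = 54 * t * (P * Q) := by ring
    rw [h1, abs_mul, abs_of_pos (by linarith : 0 < 54 * t)]
    have h2 := mul_le_mul_of_nonneg_left hPQ (by linarith : 0 ≤ 54 * t)
    linarith
  have e3 : 27 * Q ^ 2 ≤ 81 * h ^ 3 * q := by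
    have h1 : Q ^ 2 = q * q := by rw [hq, ← sq, sq_abs]
    have h2 : q * q ≤ q * (3 * h ^ 3) := mul_le_mul_of_nonneg_left hQ2 hq0
    rw [h1]; linarith
  have e3' : 0 ≤ 27 * Q ^ 2 := by positivity
  have e4 : |8 * P ^ 3| ≤ 512 * h ^ 6 := by
    rw [abs_mul, abs_pow, ← hp]
    have h1 : p ^ 3 ≤ (4 * h ^ 2) ^ 3 := pow_le_pow_left₀ hp0 hP 3
    have h2 : (4 * h ^ 2) ^ 3 = 64 * h ^ 6 := by ring
    rw [h2] at h1
    norm_num
    linarith
  rw [abs_le] at e2 e4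
  obtain ⟨G, hG⟩ : ∃ G : ℤ, G = 3 * t ^ 2 + 2 * P := ⟨_, rfl⟩
  obtain ⟨E, hE⟩ : ∃ E : ℤ, E = 54 * Q * t ^ 3 - 9 * P ^ 2 * t ^ 2 + 54 * P * Q * t + 27 * Q ^ 2 - 8 * P ^ 3 :=
    ⟨_, rfl⟩
  have hid : 19683 * (y ^ 2 - x ^ 3) = E + (G ^ 3 - (27 * x) ^ 3) := by
    have h1 : 27 * (27 * y) ^ 2 = 27 * (t ^ 3 + P * t + Q) ^ 2 := by rw [hy]
    rw [hE, hG]
    linear_combination h1
  have hPle : -(4 * h ^ 2) ≤ P ∧ P ≤ 4 * h ^ 2 := by
    rw [← abs_le, ← hp]; exact hP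
  have hG1 : 29 * t ^ 2 ≤ 10 * G := by
    rw [hG]
    nlinarith [hPle.1]
  have hG0 : 0 < G := by linarith
  have hG2 : G ≤ 4 * t ^ 2 := by
    rw [hG]
    nlinarith [hPle.2]
  have habs : |19683 * (y ^ 2 - x ^ 3)| = 19683 * |y ^ 2 - x ^ 3| := by
    rw [abs_mul]; norm_num
  have hqt3 : 0 ≤ q * t ^ 3 := by positivity
  have hqt2 : 0 ≤ q * t ^ 2 := by positivity
  have hqt : 0 ≤ q * t := by positivity
  have hEabs1 : |54 * Q * t ^ 3| = 54 * (q * t ^ 3) := by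
    rw [abs_mul, abs_mul, ← hq, abs_of_pos (by positivity : (0 : ℤ) < t ^ 3)]
    norm_num
    ring
  by_cases hU : 27 * x - G = 0
  · have hx : 27 * x = G := by linarith
    have hx0 : 0 < x := by linarith
    rw [hx, sub_self, add_zero] at hid
    -- lower bound for E
    have g1 : 144 * h ^ 4 * t ^ 2 ≤ q * t ^ 3 := by
      have h1 : 144 * h ^ 2 ≤ t := by linarith
      have h2 : h ^ 2 * (144 * h ^ 2) ≤ q * t := mul_le_mul hQ1 h1 (by positivity) hq0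
      have h3 := mul_le_mul_of_nonneg_right h2 htt0.le
      nlinarith
    have g2 : 216 * h ^ 2 * q * t ≤ q * t ^ 3 := by
      have h1 : 216 * h ^ 2 ≤ t ^ 2 := by linarith
      have h2 := mul_le_mul_of_nonneg_right h1 hqt
      nlinarith
    have g3 : 81 * h ^ 3 * q ≤ q * t ^ 3 := by
      have h1 : 81 * h ^ 3 ≤ t ^ 3 := by nlinarith
      have h2 := mul_le_mul_of_nonneg_right h1 hq0
      nlinarith
    have g4 : 512 * h ^ 6 ≤ q * t ^ 3 := by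
      have h1 : 1 ≤ q := by linarith
      have h2 : t ^ 2 ≤ t ^ 3 := by nlinarith
      have h3 : t ^ 2 * 1 ≤ t ^ 3 * q := mul_le_mul h2 h1 (by norm_num) (by positivity)
      have h6p : 0 ≤ h ^ 6 := by positivity
      nlinarith
    have g5 : 19683 * t ^ 2 ≤ q * t ^ 3 := by
      have h1 : 1 ≤ q := by linarith
      have h2 : 19683 * t ^ 2 ≤ t ^ 3 := by nlinarith
      have h3 : (19683 * t ^ 2) * 1 ≤ t ^ 3 * q := mul_le_mul h2 h1 (by norm_num) (by positivity)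
      linarith
    have hElow : 50 * (q * t ^ 3) ≤ |E| := by
      have h1 : |54 * Q * t ^ 3| ≤ |E| + |9 * P ^ 2 * t ^ 2 - 54 * P * Q * t - 27 * Q ^ 2 + 8 * P ^ 3| := by
        have h2 : 54 * Q * t ^ 3 = E + (9 * P ^ 2 * t ^ 2 - 54 * P * Q * t - 27 * Q ^ 2 + 8 * P ^ 3) := by
          rw [hE]; ring
        rw [h2]
        exact abs_add_le _ _
      have h3 : |9 * P ^ 2 * t ^ 2 - 54 * P * Q * t - 27 * Q ^ 2 + 8 * P ^ 3| ≤ 4 * (q * t ^ 3) := by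
        rw [abs_le]
        constructor
        · linarith [e2.1, e2.2, e4.1, e4.2]
        · linarith [e2.1, e2.2, e4.1, e4.2]
      rw [hEabs1] at h1
      linarith
    have h7 : 19683 * |x| ≤ |E| := by
      rw [abs_of_pos hx0]
      have : 19683 * x ≤ 19683 * t ^ 2 := by linarith
      linarith
    rw [← hid, habs] at h7
    linarith
  · have hU1 : 1 ≤ |27 * x - G| := Int.one_le_abs hU
    have k1 : ((27 * x) ^ 2 + G ^ 2) ≤ 2 * |G ^ 3 - (27 * x) ^ 3| := by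
      have h1 : G ^ 3 - (27 * x) ^ 3 = (27 * x - G) * (-(G ^ 2 + G * (27 * x) + (27 * x) ^ 2)) := by ring
      have h2 : 0 ≤ G ^ 2 + G * (27 * x) + (27 * x) ^ 2 := by nlinarith [sq_nonneg (G + 27 * x), sq_nonneg G, sq_nonneg (27 * x)]
      rw [h1, abs_mul, abs_neg, abs_of_nonneg h2]
      have h3 : 1 * (G ^ 2 + G * (27 * x) + (27 * x) ^ 2) ≤ |27 * x - G| * (G ^ 2 + G * (27 * x) + (27 * x) ^ 2) :=
        mul_le_mul_of_nonneg_right hU1 h2
      nlinarith [sq_nonneg (G + 27 * x)]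
    have ht4 : 0 < t ^ 4 := by positivity
    have k2 : 100 * |E| ≤ 166 * t ^ 4 := by
      have m1 : 100 * (54 * (q * t ^ 3)) ≤ 162 * t ^ 4 := by
        have h1 : 100 * q ≤ 3 * t := by linarith
        have h2 := mul_le_mul_of_nonneg_right h1 (by positivity : 0 ≤ t ^ 3)
        nlinarith
      have m2 : 100 * (144 * h ^ 4 * t ^ 2) ≤ t ^ 4 := by
        have h1 : 14400 * h ^ 4 ≤ t ^ 2 := by
          have : 0 ≤ h ^ 4 := by positivity
          linarith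
        have h2 := mul_le_mul_of_nonneg_right h1 htt0.le
        nlinarith
      have m3 : 100 * (216 * h ^ 2 * q * t) ≤ t ^ 4 := by
        have h1 : 100 * q ≤ 3 * t := by linarith
        have h2 : 216 * h ^ 2 ≤ t := by linarith
        have h3 : (216 * h ^ 2) * (100 * q) ≤ t * (3 * t) := mul_le_mul h2 h1 (by positivity) ht0.le
        have h4 := mul_le_mul_of_nonneg_right h3 ht0.le
        have h5 : 3 * t ^ 3 ≤ t ^ 4 := by nlinarith [mul_pos htt0 ht0]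
        nlinarith
      have m4 : 100 * (81 * h ^ 3 * q) ≤ t ^ 4 := by
        have h1 : 100 * q ≤ 3 * t := by linarith
        have h2 : 81 * h ^ 3 ≤ t := by linarith
        have h3 : (81 * h ^ 3) * (100 * q) ≤ t * (3 * t) := mul_le_mul h2 h1 (by positivity) ht0.le
        have h5 : 3 * t ^ 2 ≤ t ^ 4 := by nlinarith
        nlinarith
      have m5 : 100 * (512 * h ^ 6) ≤ t ^ 4 := by
        have h1 : 0 ≤ h ^ 6 := by positivity
        nlinarith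
      have h1 : |E| ≤ |54 * Q * t ^ 3| + |-(9 * P ^ 2 * t ^ 2) + 54 * P * Q * t + 27 * Q ^ 2 - 8 * P ^ 3| := by
        have h2 : E = 54 * Q * t ^ 3 + (-(9 * P ^ 2 * t ^ 2) + 54 * P * Q * t + 27 * Q ^ 2 - 8 * P ^ 3) := by
          rw [hE]; ring
        rw [h2]
        exact abs_add_le _ _
      have h3 : |-(9 * P ^ 2 * t ^ 2) + 54 * P * Q * t + 27 * Q ^ 2 - 8 * P ^ 3| ≤
          144 * h ^ 4 * t ^ 2 + 216 * h ^ 2 * q * t + 81 * h ^ 3 * q + 512 * h ^ 6 := by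
        rw [abs_le]
        constructor
        · linarith [e2.1, e2.2, e4.1, e4.2, mul_nonneg (mul_nonneg (by positivity : 0 ≤ 81 * h ^ 2) hq0) ht0.le,
            (by positivity : 0 ≤ 81 * h ^ 3 * q)]
        · linarith [e2.1, e2.2, e4.1, e4.2, (by positivity : 0 ≤ 144 * h ^ 4 * t ^ 2)]
      rw [hEabs1] at h1
      linarith
    have k3 : |G ^ 3 - (27 * x) ^ 3| ≤ 19683 * |y ^ 2 - x ^ 3| + |E| := by
      rw [← habs, hid]
      have := abs_sub (E + (G ^ 3 - (27 * x) ^ 3)) E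
      rwa [add_sub_cancel_left] at this
    have k4 : 841 * t ^ 4 ≤ 100 * G ^ 2 := by
      have h1 : (29 * t ^ 2) * (29 * t ^ 2) ≤ (10 * G) * (10 * G) := mul_le_mul hG1 hG1 (by positivity) (by linarith)
      nlinarith
    have hxx : (27 * x) ^ 2 = 729 * |x| ^ 2 := by rw [sq_abs]; ring
    rw [hxx] at k1
    have hx0 := abs_nonneg x
    have ht4' : 1000000 ≤ t ^ 4 := by nlinarith
    nlinarith [sq_nonneg (|x| - 28)]

theorem elemY (x y t P Q h : ℤ) (hh : 30 ≤ h) (ht : 100 * h ^ 3 ≤ |t|) (hP : |P| ≤ 4 * h ^ 2)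
    (hQ1 : h ^ 2 ≤ |Q|) (hQ2 : |Q| ≤ 3 * h ^ 3) (hy : 27 * y = t ^ 3 + P * t + Q) :
    |x| ≤ |y ^ 2 - x ^ 3| := by
  rcases le_total 0 t with h0 | h0
  · rw [abs_of_nonneg h0] at ht
    exact elemY0 x y t P Q h hh ht hP hQ1 hQ2 hy
  · rw [abs_of_nonpos h0] at ht
    have := elemY0 x (-y) (-t) P (-Q) h hh ht hP (by rwa [abs_neg]) (by rwa [abs_neg]) (by linear_combination -hy)
    rwa [neg_sq] at this

end T9h23.Ha
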