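import Pool.Agent.T9h23.Ha.Y1
import Pool.Agent.T9h23.Ha.E5

/-! # Cubic polynomials with an exceptional value -/

set_option autoImplicit false

namespace T9h23.Ha

open Finset Filter Topology T9h23.Op
open scoped Classical

/-- the value of the polynomial `n ^ 3 + a 2 n ^ 2 + a 1 n + a 0` -/
def cv (a : Fin 3 → ℤ) (n : ℤ) : ℤ := n ^ 3 + ev a n

theorem ev3 (a : Fin 3 → ℤ) (n : ℤ) : ev a n = a 0 + a 1 * n + a 2 * n ^ 2 := by
  unfold ev
  rw [Fin.sum_univ_three]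
  simp

theorem cub_reps (H : ℕ) (hH : 1 ≤ H) (n y : ℤ) : (((box 3 H).filter (fun a => cv a n = y)).card : ℝ) ≤
    36 * ((H : ℝ) ^ 2 * (max |(n : ℝ)| 1 ^ 2)⁻¹ + 1) := by
  have h1 := cnt H 2 hH n (y - n ^ 3)
  have h2 : (box 3 H).filter (fun a => cv a n = y) = (box (2 + 1) H).filter (fun a => ev a n = y - n ^ 3) := by
    ext a
    rw [mem_filter, mem_filter]
    unfold cv
    constructor
    · rintro ⟨g1, g2⟩; exact ⟨g1, by linarith⟩
    · rintro ⟨g1, g2⟩; exact ⟨g1, by linarith⟩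
  rw [h2]
  norm_num at h1 ⊢
  exact h1

theorem cv_le (H : ℕ) (n : ℤ) (a : Fin 3 → ℤ) (ha : a ∈ box 3 H) :
    |(cv a n : ℝ)| ≤ max |(n : ℝ)| 1 ^ 3 + 3 * H * max |(n : ℝ)| 1 ^ 2 := by
  have h1 := ev_le H 2 n a ha
  unfold cv
  push_cast
  have h2 : |(n : ℝ) ^ 3| ≤ max |(n : ℝ)| 1 ^ 3 := by
    rw [abs_pow]
    exact pow_le_pow_left₀ (abs_nonneg _) (le_max_left _ _) 3
  have h3 := abs_add_le ((n : ℝ) ^ 3) (ev a n : ℝ)
  norm_num at h1
  linarith

/-- one argument -/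
theorem cub_per_n {δ K γ : ℝ} (hcount : ∀ X : ℝ, 1 ≤ X → ∀ U : Finset ℤ,
    (∀ y ∈ U, |(y : ℝ)| ≤ X ∧ BadY δ y) → (U.card : ℝ) ≤ K * X ^ γ) (H : ℕ) (hH : 1 ≤ H) (n : ℤ) :
    (((box 3 H).filter (fun a => BadY δ (cv a n))).card : ℝ) ≤
      (K * (max |(n : ℝ)| 1 ^ 3 + 3 * H * max |(n : ℝ)| 1 ^ 2) ^ γ) *
        (36 * ((H : ℝ) ^ 2 * (max |(n : ℝ)| 1 ^ 2)⁻¹ + 1)) := by
  have hHr : (1 : ℝ) ≤ H := by exact_mod_cast hH
  set m : ℝ := max |(n : ℝ)| 1 with hm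
  have hm1 : 1 ≤ m := le_max_right _ _
  have hm0 : 0 < m := by linarith
  set X : ℝ := m ^ 3 + 3 * H * m ^ 2 with hX
  have hX1 : 1 ≤ X := by
    have h1 : 1 ≤ m ^ 3 := one_le_pow₀ hm1
    have h2 : 0 ≤ 3 * (H : ℝ) * m ^ 2 := by positivity
    linarith
  set B : Finset ℤ := (Icc (-⌊X⌋) ⌊X⌋).filter (fun y => BadY δ y) with hB
  have hBc : (B.card : ℝ) ≤ K * X ^ γ := by
    apply hcount X hX1
    intro y hy
    rw [hB, mem_filter, mem_Icc, ← abs_le, Int.le_floor, Int.cast_abs] at hy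
    exact hy
  have hsub : (box 3 H).filter (fun a => BadY δ (cv a n)) ⊆
      B.biUnion (fun y => (box 3 H).filter (fun a => cv a n = y)) := by
    intro a ha
    rw [mem_filter] at ha
    rw [mem_biUnion]
    refine ⟨cv a n, ?_, ?_⟩
    · rw [hB, mem_filter, mem_Icc, ← abs_le, Int.le_floor, Int.cast_abs]
      exact ⟨cv_le H n a ha.1, ha.2⟩
    · rw [mem_filter]; exact ⟨ha.1, rfl⟩
  have hr0 : 0 ≤ 36 * ((H : ℝ) ^ 2 * (m ^ 2)⁻¹ + 1) := by positivity
  calc (((box 3 H).filter (fun a => BadY δ (cv a n))).card : ℝ)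
      ≤ ((B.biUnion (fun y => (box 3 H).filter (fun a => cv a n = y))).card : ℝ) := by
        exact_mod_cast Finset.card_le_card hsub
    _ ≤ ∑ y ∈ B, (((box 3 H).filter (fun a => cv a n = y)).card : ℝ) := by exact_mod_cast Finset.card_biUnion_le
    _ ≤ B.card • (36 * ((H : ℝ) ^ 2 * (m ^ 2)⁻¹ + 1)) :=
        Finset.sum_le_card_nsmul _ _ _ fun y _ => cub_reps H hH n y
    _ = (B.card : ℝ) * (36 * ((H : ℝ) ^ 2 * (m ^ 2)⁻¹ + 1)) := by rw [nsmul_eq_mul]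
    _ ≤ _ := by gcongr

/-- the arguments at which a given value can be taken -/
theorem arg_count (H : ℤ) (hH : 1 ≤ H) (y : ℤ) (s : Finset ℤ)
    (h : ∀ n ∈ s, 4 * H < |n| ∧ |y - n ^ 3| ≤ 3 * H * n ^ 2) : (s.card : ℤ) ≤ 3 * H + 1 := by
  have hsign : ∀ n ∈ s, 0 < y * n := by
    intro n hn
    obtain ⟨h1, h2⟩ := h n hn
    rw [abs_le] at h2
    rcases lt_trichotomy n 0 with h0 | h0 | h0
    · rw [abs_of_neg h0] at h1
      have hn0 : n ≠ 0 := ne_of_lt h0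
      have h3 : y < 0 := by
        have h4 : n ^ 3 + 3 * H * n ^ 2 < 0 := by
          have : n ^ 3 + 3 * H * n ^ 2 = n ^ 2 * (n + 3 * H) := by ring
          rw [this]
          apply mul_neg_of_pos_of_neg (by positivity)
          linarith
        linarith [h2.2]
      exact mul_pos_of_neg_of_neg h3 h0
    · rw [h0, abs_zero] at h1
      linarith
    · rw [abs_of_pos h0] at h1
      have h3 : 0 < y := by
        have h4 : 0 < n ^ 3 - 3 * H * n ^ 2 := by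
          have : n ^ 3 - 3 * H * n ^ 2 = n ^ 2 * (n - 3 * H) := by ring
          rw [this]
          apply mul_pos (by positivity)
          linarith
        linarith [h2.1]
      exact mul_pos h3 h0
  rcases s.eq_empty_or_nonempty with h0 | h0
  · rw [h0, card_empty]
    push_cast
    linarith
  · set m := s.min' h0 with hm
    set M := s.max' h0 with hM
    have hmM : m ≤ M := s.min'_le_max' h0
    have s1 := hsign m (s.min'_mem h0)
    have s2 := hsign M (s.max'_mem h0)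
    have hmMpos : 0 < m * M := by
      have h1 : 0 < (y * m) * (y * M) := mul_pos s1 s2
      have h2 : (y * m) * (y * M) = y ^ 2 * (m * M) := by ring
      rw [h2] at h1
      exact pos_of_mul_pos_right h1 (sq_nonneg y)
    obtain ⟨-, h2⟩ := h m (s.min'_mem h0)
    obtain ⟨-, h4⟩ := h M (s.max'_mem h0)
    rw [abs_le] at h2 h4
    have h5 : (M - m) * (M ^ 2 + M * m + m ^ 2) ≤ 3 * H * (M ^ 2 + M * m + m ^ 2) := by
      have h6 : (M - m) * (M ^ 2 + M * m + m ^ 2) = M ^ 3 - m ^ 3 := by ring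
      rw [h6]
      have h7 : M ^ 3 - m ^ 3 ≤ 3 * H * (M ^ 2 + m ^ 2) := by linarith [h2.1, h2.2, h4.1, h4.2]
      have h8 : 0 ≤ 3 * H * (M * m) := by
        apply mul_nonneg (by linarith)
        linarith [mul_comm m M]
      linarith
    have hpos : 0 < M ^ 2 + M * m + m ^ 2 := by
      nlinarith [sq_nonneg M, sq_nonneg m]
    have h6 : M - m ≤ 3 * H := le_of_mul_le_mul_right h5 hpos
    have h7 : s.card ≤ (Icc m M).card := by
      apply Finset.card_le_card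
      intro t ht
      rw [mem_Icc]
      exact ⟨s.min'_le t ht, s.le_max' t ht⟩
    rw [Int.card_Icc] at h7
    omega

/-- large arguments -/
theorem cub_range {δ K γ : ℝ} (hcount : ∀ X : ℝ, 1 ≤ X → ∀ U : Finset ℤ,
    (∀ y ∈ U, |(y : ℝ)| ≤ X ∧ BadY δ y) → (U.card : ℝ) ≤ K * X ^ γ) (H : ℕ) (hH : 1 ≤ H) :
    (((box 3 H).filter (fun a => ∃ n : ℤ, 4 * (H : ℤ) < |n| ∧ |n| ≤ 34 * (H : ℤ) ^ 3 ∧ BadY δ (cv a n))).card : ℝ) ≤
      (K * (50000 * (H : ℝ) ^ 9) ^ γ) * (4 * H * 72) := by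
  have hHr : (1 : ℝ) ≤ H := by exact_mod_cast hH
  have hHz : (1 : ℤ) ≤ H := by exact_mod_cast hH
  set Y : ℝ := 50000 * (H : ℝ) ^ 9 with hY
  have hY1 : 1 ≤ Y := by
    have : 1 ≤ (H : ℝ) ^ 9 := one_le_pow₀ hHr
    rw [hY]; linarith
  set B : Finset ℤ := (Icc (-⌊Y⌋) ⌊Y⌋).filter (fun y => BadY δ y) with hB
  have hBc : (B.card : ℝ) ≤ K * Y ^ γ := by
    apply hcount Y hY1
    intro y hy
    rw [hB, mem_filter, mem_Icc, ← abs_le, Int.le_floor, Int.cast_abs] at hy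
    exact hy
  set Ns : ℤ → Finset ℤ := fun y => (Icc (-(34 * (H : ℤ) ^ 3)) (34 * (H : ℤ) ^ 3)).filter
    (fun n => 4 * (H : ℤ) < |n| ∧ |y - n ^ 3| ≤ 3 * (H : ℤ) * n ^ 2) with hNs
  have hNc : ∀ y, ((Ns y).card : ℝ) ≤ 4 * H := by
    intro y
    have h1 := arg_count (H : ℤ) hHz y (Ns y) (by
      intro n hn
      rw [hNs, mem_filter] at hn
      exact hn.2)
    have h2 : (((Ns y).card : ℤ) : ℝ) ≤ ((3 * (H : ℤ) + 1 : ℤ) : ℝ) := by exact_mod_cast h1
    push_cast at h2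
    linarith
  have hsub : (box 3 H).filter (fun a => ∃ n : ℤ, 4 * (H : ℤ) < |n| ∧ |n| ≤ 34 * (H : ℤ) ^ 3 ∧ BadY δ (cv a n)) ⊆
      B.biUnion (fun y => (Ns y).biUnion (fun n => (box 3 H).filter (fun a => cv a n = y))) := by
    intro a ha
    rw [mem_filter] at ha
    obtain ⟨ha1, n, hn1, hn2, hbad⟩ := ha
    have hnr : |(n : ℝ)| ≤ 34 * (H : ℝ) ^ 3 := by exact_mod_cast hn2
    have hn1r : 4 * (H : ℝ) < |(n : ℝ)| := by exact_mod_cast hn1
    have hmax : max |(n : ℝ)| 1 = |(n : ℝ)| := max_eq_left (by linarith)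
    rw [mem_biUnion]
    refine ⟨cv a n, ?_, ?_⟩
    · rw [hB, mem_filter, mem_Icc, ← abs_le, Int.le_floor, Int.cast_abs]
      refine ⟨?_, hbad⟩
      have h1 := cv_le H n a ha1
      rw [hmax] at h1
      have h3 : |(n : ℝ)| ^ 3 ≤ (34 * (H : ℝ) ^ 3) ^ 3 := pow_le_pow_left₀ (abs_nonneg _) hnr 3
      have h4 : |(n : ℝ)| ^ 2 ≤ (34 * (H : ℝ) ^ 3) ^ 2 := pow_le_pow_left₀ (abs_nonneg _) hnr 2
      have h5 : (H : ℝ) ^ 7 ≤ (H : ℝ) ^ 9 := pow_le_pow_right₀ hHr (by norm_num)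
      have h6 : 3 * (H : ℝ) * |(n : ℝ)| ^ 2 ≤ 3 * H * (34 * (H : ℝ) ^ 3) ^ 2 := by gcongr
      have h7 : (34 * (H : ℝ) ^ 3) ^ 3 = 39304 * (H : ℝ) ^ 9 := by ring
      have h8 : 3 * H * (34 * (H : ℝ) ^ 3) ^ 2 = 3468 * (H : ℝ) ^ 7 := by ring
      have h9 : 0 ≤ (H : ℝ) ^ 9 := by positivity
      rw [hY]
      linarith
    rw [mem_biUnion]
    refine ⟨n, ?_, ?_⟩
    · rw [hNs, mem_filter, mem_Icc, ← abs_le]
      refine ⟨hn2, hn1, ?_⟩
      have h1 : cv a n - n ^ 3 = ev a n := by unfold cv; ring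
      rw [h1]
      have h2 := ev_le H 2 n a ha1
      rw [hmax] at h2
      norm_num at h2
      exact_mod_cast h2
    · rw [mem_filter]; exact ⟨ha1, rfl⟩
  have hrep : ∀ y, ∀ n ∈ Ns y, (((box 3 H).filter (fun a => cv a n = y)).card : ℝ) ≤ 72 := by
    intro y n hn
    rw [hNs, mem_filter] at hn
    have hn1r : 4 * (H : ℝ) < |(n : ℝ)| := by exact_mod_cast hn.2.1
    have hmax : max |(n : ℝ)| 1 = |(n : ℝ)| := max_eq_left (by linarith)
    have h1 := cub_reps H hH n y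
    rw [hmax] at h1
    refine h1.trans ?_
    have h2 : (H : ℝ) ^ 2 * (|(n : ℝ)| ^ 2)⁻¹ ≤ 1 := by
      have hpos : 0 < |(n : ℝ)| ^ 2 := by
        have : 0 < |(n : ℝ)| := by linarith
        positivity
      rw [← div_eq_mul_inv, div_le_one hpos]
      apply pow_le_pow_left₀ (by positivity)
      linarith
    linarith
  calc (((box 3 H).filter (fun a => ∃ n : ℤ, 4 * (H : ℤ) < |n| ∧ |n| ≤ 34 * (H : ℤ) ^ 3 ∧ BadY δ (cv a n))).card : ℝ)
      ≤ ((B.biUnion (fun y => (Ns y).biUnion (fun n => (box 3 H).filter (fun a => cv a n = y)))).card : ℝ) := by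
        exact_mod_cast Finset.card_le_card hsub
    _ ≤ ∑ y ∈ B, (((Ns y).biUnion (fun n => (box 3 H).filter (fun a => cv a n = y))).card : ℝ) := by
        exact_mod_cast Finset.card_biUnion_le
    _ ≤ ∑ y ∈ B, (4 * (H : ℝ) * 72) := by
        apply Finset.sum_le_sum
        intro y _
        calc (((Ns y).biUnion (fun n => (box 3 H).filter (fun a => cv a n = y))).card : ℝ)
            ≤ ∑ n ∈ Ns y, (((box 3 H).filter (fun a => cv a n = y)).card : ℝ) := by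
              exact_mod_cast Finset.card_biUnion_le
          _ ≤ (Ns y).card • (72 : ℝ) := Finset.sum_le_card_nsmul _ _ _ (hrep y)
          _ = ((Ns y).card : ℝ) * 72 := by rw [nsmul_eq_mul]
          _ ≤ _ := by
              have := hNc y
              gcongr
    _ = (B.card : ℝ) * (4 * H * 72) := by rw [sum_const, nsmul_eq_mul]
    _ ≤ _ := by gcongr

end T9h23.Ha
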