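import Pool.Agent.T9h23.Ha.Y2

/-! # Hall's inequality for all values of almost all monic cubic polynomials -/

set_option autoImplicit false

namespace T9h23.Ha

open Finset Filter Topology T9h23.Op
open scoped Classical

/-- polynomials with a small quadratic coefficient -/
theorem small_a (H : ℕ) (N : ℝ) (hN : 0 ≤ N) :
    (((box 3 H).filter (fun a => |(a 2 : ℝ)| ≤ N)).card : ℝ) ≤ (2 * N + 1) * (2 * H + 1) ^ 2 := by
  set s : Fin 3 → Finset ℤ := fun i => if i = 2 then Icc (-⌊N⌋) ⌊N⌋ else Icc (-(H : ℤ)) H with hs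
  have hsub : (box 3 H).filter (fun a => |(a 2 : ℝ)| ≤ N) ⊆ Fintype.piFinset s := by
    intro a ha
    rw [mem_filter, mem_box] at ha
    rw [Fintype.mem_piFinset]
    intro i
    rw [hs]
    dsimp only
    by_cases hi : i = 2
    · rw [if_pos hi, hi, mem_Icc, ← abs_le, Int.le_floor, Int.cast_abs]
      exact ha.2
    · rw [if_neg hi, mem_Icc, ← abs_le]
      exact ha.1 i
  have h1 := Finset.card_le_card hsub
  rw [Fintype.card_piFinset, Fin.prod_univ_three] at h1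
  have e0 : (s 0).card = 2 * H + 1 := by
    rw [hs]
    simp only [show ¬ ((0 : Fin 3) = 2) by decide, if_false, Int.card_Icc]
    omega
  have e1 : (s 1).card = 2 * H + 1 := by
    rw [hs]
    simp only [show ¬ ((1 : Fin 3) = 2) by decide, if_false, Int.card_Icc]
    omega
  have e2 : ((s 2).card : ℝ) ≤ 2 * N + 1 := by
    rw [hs]
    simp only [if_true, Int.card_Icc]
    have h4 : 0 ≤ ⌊N⌋ := Int.floor_nonneg.2 hN
    have h5 : ((⌊N⌋ + 1 - -⌊N⌋).toNat : ℤ) = 2 * ⌊N⌋ + 1 := by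
      rw [Int.toNat_of_nonneg (by omega)]; ring
    have h6 : (((⌊N⌋ + 1 - -⌊N⌋).toNat : ℤ) : ℝ) = 2 * (⌊N⌋ : ℝ) + 1 := by
      rw [h5]; push_cast; ring
    rw [Int.cast_natCast] at h6
    rw [h6]
    linarith [Int.floor_le N]
  rw [e0, e1] at h1
  have h2 : (((box 3 H).filter (fun a => |(a 2 : ℝ)| ≤ N)).card : ℝ) ≤
      (((2 * H + 1) * (2 * H + 1) * (s 2).card : ℕ) : ℝ) := by exact_mod_cast h1
  refine h2.trans ?_
  push_cast
  have h3 : (0 : ℝ) ≤ (2 * H + 1) * (2 * H + 1) := by positivity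
  calc (2 * (H : ℝ) + 1) * (2 * H + 1) * ((s 2).card : ℝ) ≤ (2 * (H : ℝ) + 1) * (2 * H + 1) * (2 * N + 1) := by
        gcongr
    _ = _ := by ring

/-- no exceptional values at large arguments -/
theorem large_arg {δ : ℝ} (hδ0 : 0 < δ) (H : ℕ) (hH : 30 ≤ H) (N : ℝ) (hN0 : 0 ≤ N) (hN2 : 9 * (H : ℝ) ≤ N ^ 2)
    (hN3 : 28 * (H : ℝ) ^ 2 ≤ N ^ 3) (a : Fin 3 → ℤ) (ha : a ∈ box 3 H) (haN : N < |(a 2 : ℝ)|) (n : ℤ)
    (hn : 34 * (H : ℤ) ^ 3 < |n|) : ¬ BadY δ (cv a n) := by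
  rintro ⟨x, hne, hlt⟩
  rw [mem_box] at ha
  have hHz : (30 : ℤ) ≤ H := by exact_mod_cast hH
  have hHr : (30 : ℝ) ≤ H := by exact_mod_cast hH
  have a0 := ha 0
  have a1 := ha 1
  have a2 := ha 2
  obtain ⟨A, hA⟩ : ∃ A : ℤ, A = a 2 := ⟨_, rfl⟩
  obtain ⟨B, hB⟩ : ∃ B : ℤ, B = a 1 := ⟨_, rfl⟩
  obtain ⟨C, hC⟩ : ∃ C : ℤ, C = a 0 := ⟨_, rfl⟩
  rw [← hA] at a2 haN
  rw [← hB] at a1
  rw [← hC] at a0
  have hcv : cv a n = n ^ 3 + (C + B * n + A * n ^ 2) := by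
    unfold cv
    rw [ev3, hA, hB, hC]
  have hA2 : A ^ 2 ≤ (H : ℤ) ^ 2 := by
    rw [← sq_abs A]; exact pow_le_pow_left₀ (abs_nonneg A) a2 2
  have hAB : |A * B| ≤ (H : ℤ) ^ 2 := by
    rw [abs_mul, pow_two]
    exact mul_le_mul a2 a1 (abs_nonneg _) (by positivity)
  have hA3 : |A ^ 3| ≤ (H : ℤ) ^ 3 := by
    rw [abs_pow]; exact pow_le_pow_left₀ (abs_nonneg A) a2 3
  have hP : |9 * B - 3 * A ^ 2| ≤ 4 * (H : ℤ) ^ 2 := by
    rw [abs_le] at a1 ⊢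
    constructor
    · nlinarith
    · nlinarith [sq_nonneg A]
  have hH3 : 30 * (H : ℤ) ^ 2 ≤ (H : ℤ) ^ 3 := by nlinarith [sq_nonneg (H : ℤ)]
  have hQ2 : |27 * C - 9 * A * B + 2 * A ^ 3| ≤ 3 * (H : ℤ) ^ 3 := by
    rw [abs_le] at a0 hAB hA3 ⊢
    constructor
    · nlinarith [a0.1, a0.2, hAB.1, hAB.2, hA3.1, hA3.2]
    · nlinarith [a0.1, a0.2, hAB.1, hAB.2, hA3.1, hA3.2]
  have hQ1 : (H : ℤ) ^ 2 ≤ |27 * C - 9 * A * B + 2 * A ^ 3| := by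
    have a0r : |(C : ℝ)| ≤ H := by exact_mod_cast a0
    have a1r : |(B : ℝ)| ≤ H := by exact_mod_cast a1
    have h1 : |2 * (A : ℝ) ^ 3| ≤ |27 * (C : ℝ) - 9 * A * B + 2 * A ^ 3| + |27 * (C : ℝ) - 9 * A * B| := by
      have := abs_sub (27 * (C : ℝ) - 9 * A * B + 2 * A ^ 3) (27 * (C : ℝ) - 9 * A * B)
      rwa [add_sub_cancel_left] at this
    have h2 : |27 * (C : ℝ) - 9 * A * B| ≤ 27 * H + 9 * |(A : ℝ)| * H := by
      refine (abs_sub _ _).trans ?_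
      rw [abs_mul, abs_mul, abs_mul]
      norm_num
      gcongr
    have h3 : |2 * (A : ℝ) ^ 3| = 2 * |(A : ℝ)| ^ 3 := by
      rw [abs_mul, abs_pow]; norm_num
    rw [h3] at h1
    set α : ℝ := |(A : ℝ)| with hα
    have hα0 : 0 ≤ α := abs_nonneg _
    have h4 : 9 * (H : ℝ) ≤ α ^ 2 := hN2.trans (pow_le_pow_left₀ hN0 haN.le 2)
    have h5 : 28 * (H : ℝ) ^ 2 ≤ α ^ 3 := hN3.trans (pow_le_pow_left₀ hN0 haN.le 3)
    have h6 : 9 * α * H ≤ α ^ 3 := by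
      have := mul_le_mul_of_nonneg_left h4 hα0
      nlinarith
    have h7 : 27 * (H : ℝ) ≤ 27 * (H : ℝ) ^ 2 := by nlinarith
    have h8 : (H : ℝ) ^ 2 ≤ |27 * (C : ℝ) - 9 * A * B + 2 * A ^ 3| := by linarith
    exact_mod_cast h8
  have ht : 100 * (H : ℤ) ^ 3 ≤ |3 * n + A| := by
    have h1 : |3 * n| ≤ |3 * n + A| + |A| := by
      have := abs_sub (3 * n + A) A
      rwa [add_sub_cancel_right] at this
    rw [abs_mul] at h1
    norm_num at h1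
    nlinarith
  have hmain := elemY x (cv a n) (3 * n + A) (9 * B - 3 * A ^ 2) (27 * C - 9 * A * B + 2 * A ^ 3) H hHz ht hP hQ1 hQ2
    (by rw [hcv]; ring)
  have hmainr : |(x : ℝ)| ≤ |((cv a n : ℤ) : ℝ) ^ 2 - (x : ℝ) ^ 3| := by exact_mod_cast hmain
  have hone : (1 : ℝ) ≤ |((cv a n : ℤ) : ℝ) ^ 2 - (x : ℝ) ^ 3| := by
    have h1 : 1 ≤ |cv a n ^ 2 - x ^ 3| := Int.one_le_abs (sub_ne_zero.2 hne)
    exact_mod_cast h1
  have h2 : |(x : ℝ)| ^ (1 / 2 - δ) ≤ max |(x : ℝ)| 1 := by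
    rcases le_total 1 |(x : ℝ)| with h | h
    · rw [max_eq_left h]
      calc |(x : ℝ)| ^ (1 / 2 - δ) ≤ |(x : ℝ)| ^ (1 : ℝ) := Real.rpow_le_rpow_of_exponent_le h (by linarith)
        _ = _ := Real.rpow_one _
    · rw [max_eq_right h]
      rcases eq_or_ne x 0 with h0 | h0
      · rw [h0, Int.cast_zero, abs_zero]
        rcases eq_or_ne (1 / 2 - δ) 0 with h3 | h3
        · rw [h3, Real.rpow_zero]
        · rw [Real.zero_rpow h3]; norm_num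
      · have h3 : (1 : ℝ) ≤ |(x : ℝ)| := by
          have : 1 ≤ |x| := Int.one_le_abs h0
          exact_mod_cast this
        have h4 : |(x : ℝ)| = 1 := le_antisymm h h3
        rw [h4, Real.one_rpow]
  have h3 : max |(x : ℝ)| 1 ≤ |((cv a n : ℤ) : ℝ) ^ 2 - (x : ℝ) ^ 3| := max_le hmainr hone
  linarith

/-- small arguments -/
theorem cub_small {δ K γ : ℝ} (hK : 0 < K) (hγ0 : 0 ≤ γ) (hγ1 : γ ≤ 2 / 9) (hcount : ∀ X : ℝ, 1 ≤ X → ∀ U : Finset ℤ,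
    (∀ y ∈ U, |(y : ℝ)| ≤ X ∧ BadY δ y) → (U.card : ℝ) ≤ K * X ^ γ) (H : ℕ) (hH : 1 ≤ H) :
    (((box 3 H).filter (fun a => ∃ n : ℤ, |n| ≤ 4 * (H : ℤ) ∧ BadY δ (cv a n))).card : ℝ) ≤
      16128 * K * (H : ℝ) ^ (8 / 3 : ℝ) * (8 + 1 * Real.log H) := by
  have hHr : (1 : ℝ) ≤ H := by exact_mod_cast hH
  have hH0 : (0 : ℝ) < H := by linarith
  set S : ℤ → Finset (Fin 3 → ℤ) := fun n => (box 3 H).filter (fun a => BadY δ (cv a n)) with hS
  have hsub : (box 3 H).filter (fun a => ∃ n : ℤ, |n| ≤ 4 * (H : ℤ) ∧ BadY δ (cv a n)) ⊆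
      (range (4 * H + 1)).biUnion (fun k : ℕ => S (k : ℤ) ∪ S (-(k : ℤ))) := by
    intro p hp
    rw [mem_filter] at hp
    obtain ⟨hp1, n, hn, hbad⟩ := hp
    rw [mem_biUnion]
    refine ⟨n.natAbs, ?_, ?_⟩
    · rw [mem_range]
      have := Int.natCast_natAbs n
      omega
    · rw [mem_union]
      rcases Int.natAbs_eq n with h | h
      · left
        rw [← h, hS, mem_filter]
        exact ⟨hp1, hbad⟩
      · right
        rw [← h, hS, mem_filter]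
        exact ⟨hp1, hbad⟩
  set b : ℕ → ℝ := fun k => K * (112 * (H : ℝ) ^ (2 / 3 : ℝ)) *
    (36 * ((H : ℝ) ^ 2 * (max |((k : ℤ) : ℝ)| 1)⁻¹ + 1)) with hb
  have hP : ∀ m : ℝ, 1 ≤ m → m ≤ 4 * H → (m ^ 3 + 3 * H * m ^ 2) ^ γ ≤ 112 * (H : ℝ) ^ (2 / 3 : ℝ) := by
    intro m hm1 hmN
    have g1 : m ^ 3 ≤ (4 * (H : ℝ)) ^ 3 := pow_le_pow_left₀ (by linarith) hmN 3
    have g2 : m ^ 2 ≤ (4 * (H : ℝ)) ^ 2 := pow_le_pow_left₀ (by linarith) hmN 2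
    have h1 : m ^ 3 + 3 * H * m ^ 2 ≤ 112 * (H : ℝ) ^ 3 := by
      have g3 : 3 * (H : ℝ) * m ^ 2 ≤ 3 * H * (4 * (H : ℝ)) ^ 2 := by gcongr
      nlinarith
    have h2 : 1 ≤ m ^ 3 + 3 * H * m ^ 2 := by
      have : 1 ≤ m ^ 3 := one_le_pow₀ hm1
      have : 0 ≤ 3 * (H : ℝ) * m ^ 2 := by positivity
      linarith
    calc (m ^ 3 + 3 * H * m ^ 2) ^ γ ≤ (112 * (H : ℝ) ^ 3) ^ γ := Real.rpow_le_rpow (by linarith) h1 hγ0
      _ ≤ (112 * (H : ℝ) ^ 3) ^ (2 / 9 : ℝ) := Real.rpow_le_rpow_of_exponent_le (by linarith) hγ1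
      _ = (112 : ℝ) ^ (2 / 9 : ℝ) * (H : ℝ) ^ (2 / 3 : ℝ) := by
          rw [Real.mul_rpow (by norm_num) (by positivity), ← Real.rpow_natCast (H : ℝ) 3, ← Real.rpow_mul hH0.le]
          norm_num
      _ ≤ 112 * (H : ℝ) ^ (2 / 3 : ℝ) := by
          have : (112 : ℝ) ^ (2 / 9 : ℝ) ≤ 112 := by
            calc (112 : ℝ) ^ (2 / 9 : ℝ) ≤ (112 : ℝ) ^ (1 : ℝ) :=
                  Real.rpow_le_rpow_of_exponent_le (by norm_num) (by norm_num)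
              _ = 112 := Real.rpow_one _
          gcongr
  have hSb : ∀ k ∈ range (4 * H + 1), ((S (k : ℤ)).card : ℝ) ≤ b k ∧ ((S (-(k : ℤ))).card : ℝ) ≤ b k := by
    intro k hk
    rw [mem_range] at hk
    have hkN : max |((k : ℤ) : ℝ)| 1 ≤ 4 * H := by
      apply max_le _ (by linarith)
      rw [Int.cast_natCast, abs_of_nonneg (by positivity)]
      exact_mod_cast (by omega : k ≤ 4 * H)
    have hk1 : 1 ≤ max |((k : ℤ) : ℝ)| 1 := le_max_right _ _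
    set m : ℝ := max |((k : ℤ) : ℝ)| 1 with hm
    have hm0 : 0 < m := by linarith
    have h1 := hP m hk1 hkN
    have hbd : (K * (m ^ 3 + 3 * H * m ^ 2) ^ γ) * (36 * ((H : ℝ) ^ 2 * (m ^ 2)⁻¹ + 1)) ≤ b k := by
      rw [hb]
      have h2 : (m ^ 2)⁻¹ ≤ m⁻¹ := by
        rw [inv_le_inv₀ (by positivity) hm0]
        nlinarith
      dsimp only
      gcongr
    have g1 := cub_per_n hcount H hH (k : ℤ)
    have g2 := cub_per_n hcount H hH (-(k : ℤ))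
    rw [show |((-(k : ℤ) : ℤ) : ℝ)| = |((k : ℤ) : ℝ)| by rw [Int.cast_neg, abs_neg]] at g2
    exact ⟨g1.trans hbd, g2.trans hbd⟩
  have hsum1 : (((range (4 * H + 1)).biUnion (fun k : ℕ => S (k : ℤ) ∪ S (-(k : ℤ)))).card : ℝ) ≤
      ∑ k ∈ range (4 * H + 1), 2 * b k := by
    have h1 : (((range (4 * H + 1)).biUnion (fun k : ℕ => S (k : ℤ) ∪ S (-(k : ℤ)))).card : ℝ) ≤
        ∑ k ∈ range (4 * H + 1), ((S (k : ℤ) ∪ S (-(k : ℤ))).card : ℝ) := by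
      exact_mod_cast Finset.card_biUnion_le
    refine h1.trans (Finset.sum_le_sum fun k hk => ?_)
    have h2 : ((S (k : ℤ) ∪ S (-(k : ℤ))).card : ℝ) ≤ (S (k : ℤ)).card + (S (-(k : ℤ))).card := by
      exact_mod_cast Finset.card_union_le _ _
    have h3 := hSb k hk
    linarith [h3.1, h3.2]
  have hsum2 : ∑ k ∈ range (4 * H + 1), 2 * b k = 2 * (K * (112 * (H : ℝ) ^ (2 / 3 : ℝ))) * (36 * ((H : ℝ) ^ 2 *
      ∑ k ∈ range (4 * H + 1), (max |((k : ℤ) : ℝ)| 1)⁻¹ + (4 * H + 1))) := by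
    rw [hb]
    simp only
    rw [← mul_sum, ← mul_sum, ← mul_sum, sum_add_distrib, ← mul_sum, sum_const, card_range, nsmul_eq_mul]
    push_cast
    ring
  have hsum3 := sum_inv (4 * H) (4 * (H : ℝ)) (by push_cast; exact le_refl _) (by linarith)
  have hlog : 0 ≤ Real.log H := Real.log_nonneg hHr
  have hlog4 : Real.log (4 * (H : ℝ)) ≤ 2 + Real.log H := by
    rw [Real.log_mul (by norm_num) hH0.ne']
    have h1 : Real.log 4 ≤ 2 := by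
      have e : (4 : ℝ) = 2 ^ 2 := by norm_num
      rw [e, Real.log_pow]
      have := Real.log_two_lt_d9
      push_cast
      linarith
    linarith
  have hH83 : (H : ℝ) ^ (2 / 3 : ℝ) * (H : ℝ) ^ 2 = (H : ℝ) ^ (8 / 3 : ℝ) := by
    rw [← Real.rpow_natCast (H : ℝ) 2, ← Real.rpow_add hH0]
    norm_num
  calc (((box 3 H).filter (fun a => ∃ n : ℤ, |n| ≤ 4 * (H : ℤ) ∧ BadY δ (cv a n))).card : ℝ)
      ≤ (((range (4 * H + 1)).biUnion (fun k : ℕ => S (k : ℤ) ∪ S (-(k : ℤ)))).card : ℝ) := by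
        exact_mod_cast Finset.card_le_card hsub
    _ ≤ _ := hsum1
    _ = _ := hsum2
    _ ≤ 2 * (K * (112 * (H : ℝ) ^ (2 / 3 : ℝ))) * (36 * ((H : ℝ) ^ 2 * (2 + (2 + Real.log H)) + 5 * (H : ℝ) ^ 2)) := by
        gcongr
        · linarith
        · nlinarith
    _ = 8064 * K * ((H : ℝ) ^ (2 / 3 : ℝ) * (H : ℝ) ^ 2) * (9 + Real.log H) := by ring
    _ = 8064 * K * (H : ℝ) ^ (8 / 3 : ℝ) * (9 + Real.log H) := by rw [hH83]
    _ ≤ 8064 * K * (H : ℝ) ^ (8 / 3 : ℝ) * (2 * (8 + 1 * Real.log H)) := by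
        gcongr
        linarith
    _ = _ := by ring

theorem cubics (δ : ℝ) (hδ0 : 0 < δ) (hδ1 : δ ≤ 1 / 2) : ∃ H0 : ℕ, ∀ H : ℕ, H0 ≤ H →
    (((box 3 H).filter (fun a => ∃ n : ℤ, BadY δ (cv a n))).card : ℝ) ≤ (H : ℝ) ^ (3 - δ / 8) := by
  obtain ⟨K, hK, hcount⟩ := countY δ hδ0 hδ1
  have hγ0 : 0 ≤ 2 / 9 - δ / 18 := by linarith
  have hγ1 : 2 / 9 - δ / 18 ≤ 2 / 9 := by linarith
  set e : ℝ := 3 - δ / 6 with he
  have he9 : (29 : ℝ) / 10 ≤ e := by rw [he]; linarith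
  have hb : e < 3 - δ / 8 := by rw [he]; linarith
  have hev := ((ev_rpow_log (16128 * K) 1 (8 / 3) (29 / 10) (by norm_num)).and
    (ev_rpow (27 + 1 + 50000 * 288 * K) e (3 - δ / 8) hb)).and
    ((ev_rpow 9 1 (18 / 10) (by norm_num)).and ((ev_rpow 28 2 (27 / 10) (by norm_num)).and
      (eventually_ge_atTop 30)))
  obtain ⟨H0, hH0⟩ := eventually_atTop.1 hev
  refine ⟨H0, ?_⟩
  intro H hH
  obtain ⟨⟨k1, k2⟩, k3, k4, k5⟩ := hH0 H hH
  have hH1 : 1 ≤ H := by omega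
  have hHr : (1 : ℝ) ≤ H := by exact_mod_cast hH1
  have hHpos : (0 : ℝ) < H := by linarith
  set N : ℝ := (H : ℝ) ^ (9 / 10 : ℝ) with hN
  have hN1 : 1 ≤ N := Real.one_le_rpow hHr (by norm_num)
  have hNsq : N ^ 2 = (H : ℝ) ^ (18 / 10 : ℝ) := by
    rw [hN, ← Real.rpow_natCast, ← Real.rpow_mul hHpos.le]
    norm_num
  have hNcu : N ^ 3 = (H : ℝ) ^ (27 / 10 : ℝ) := by
    rw [hN, ← Real.rpow_natCast, ← Real.rpow_mul hHpos.le]
    norm_num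
  have hH2 : (H : ℝ) ^ (2 : ℝ) = (H : ℝ) ^ 2 := by
    rw [← Real.rpow_natCast]; norm_num
  rw [Real.rpow_one] at k3
  rw [hH2] at k4
  set S0 := (box 3 H).filter (fun a => |(a 2 : ℝ)| ≤ N) with hS0
  set S1 := (box 3 H).filter (fun a => ∃ n : ℤ, |n| ≤ 4 * (H : ℤ) ∧ BadY δ (cv a n)) with hS1
  set S2 := (box 3 H).filter (fun a => ∃ n : ℤ, 4 * (H : ℤ) < |n| ∧ |n| ≤ 34 * (H : ℤ) ^ 3 ∧ BadY δ (cv a n)) with hS2
  have hsub : (box 3 H).filter (fun a => ∃ n : ℤ, BadY δ (cv a n)) ⊆ S0 ∪ (S1 ∪ S2) := by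
    intro a ha
    rw [mem_filter] at ha
    obtain ⟨ha1, n, hn⟩ := ha
    rw [mem_union, mem_union]
    by_cases c1 : |(a 2 : ℝ)| ≤ N
    · left
      rw [hS0, mem_filter]
      exact ⟨ha1, c1⟩
    push Not at c1
    right
    by_cases c2 : |n| ≤ 4 * (H : ℤ)
    · left
      rw [hS1, mem_filter]
      exact ⟨ha1, n, c2, hn⟩
    push Not at c2
    right
    by_cases c3 : |n| ≤ 34 * (H : ℤ) ^ 3
    · rw [hS2, mem_filter]
      exact ⟨ha1, n, c2, c3, hn⟩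
    push Not at c3
    exact absurd hn (large_arg hδ0 H k5 N (by linarith) (by rw [hNsq]; exact k3) (by rw [hNcu]; exact k4) a ha1 c1 n c3)
  have b0 : (S0.card : ℝ) ≤ 27 * (H : ℝ) ^ e := by
    have h1 := small_a H N (by linarith)
    refine h1.trans ?_
    have e7 : N * (H : ℝ) ^ 2 = (H : ℝ) ^ (29 / 10 : ℝ) := by
      rw [hN, ← hH2, ← Real.rpow_add hHpos]
      norm_num
    calc (2 * N + 1) * (2 * (H : ℝ) + 1) ^ 2 ≤ (3 * N) * (3 * (H : ℝ)) ^ 2 := by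
          gcongr
          · linarith
          · linarith
      _ = 27 * (N * (H : ℝ) ^ 2) := by ring
      _ = 27 * (H : ℝ) ^ (29 / 10 : ℝ) := by rw [e7]
      _ ≤ _ := by gcongr
  have b1 : (S1.card : ℝ) ≤ 1 * (H : ℝ) ^ e := by
    rw [one_mul]
    exact (cub_small hK hγ0 hγ1 hcount H hH1).trans (k1.trans (Real.rpow_le_rpow_of_exponent_le hHr he9))
  have b2 : (S2.card : ℝ) ≤ 50000 * 288 * K * (H : ℝ) ^ e := by
    refine (cub_range hcount H hH1).trans ?_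
    have e1 : (50000 * (H : ℝ) ^ 9) ^ (2 / 9 - δ / 18) ≤ 50000 * (H : ℝ) ^ (2 - δ / 2) := by
      rw [Real.mul_rpow (by norm_num) (by positivity), ← Real.rpow_natCast (H : ℝ) 9, ← Real.rpow_mul hHpos.le]
      have e1 : (50000 : ℝ) ^ (2 / 9 - δ / 18) ≤ 50000 := by
        calc (50000 : ℝ) ^ (2 / 9 - δ / 18) ≤ (50000 : ℝ) ^ (1 : ℝ) :=
              Real.rpow_le_rpow_of_exponent_le (by norm_num) (by linarith)
          _ = 50000 := Real.rpow_one _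
      have e2 : ((9 : ℕ) : ℝ) * (2 / 9 - δ / 18) = 2 - δ / 2 := by push_cast; ring
      rw [e2]
      gcongr
    have e3 : (H : ℝ) ^ (2 - δ / 2) * H = (H : ℝ) ^ (3 - δ / 2) := by
      nth_rewrite 2 [← Real.rpow_one (H : ℝ)]
      rw [← Real.rpow_add hHpos]
      congr 1
      ring
    calc (K * (50000 * (H : ℝ) ^ 9) ^ (2 / 9 - δ / 18)) * (4 * H * 72)
        ≤ (K * (50000 * (H : ℝ) ^ (2 - δ / 2))) * (4 * H * 72) := by gcongr
      _ = 50000 * 288 * K * ((H : ℝ) ^ (2 - δ / 2) * H) := by ring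
      _ = 50000 * 288 * K * (H : ℝ) ^ (3 - δ / 2) := by rw [e3]
      _ ≤ _ := by
          have e4 : 3 - δ / 2 ≤ e := by rw [he]; linarith
          gcongr
  have hfin := (Finset.card_le_card hsub).trans ((Finset.card_union_le _ _).trans
    (Nat.add_le_add_left (Finset.card_union_le _ _) _))
  have hfin' : (((box 3 H).filter (fun a => ∃ n : ℤ, BadY δ (cv a n))).card : ℝ) ≤
      (S0.card : ℝ) + ((S1.card : ℝ) + (S2.card : ℝ)) := by
    exact_mod_cast hfin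
  refine hfin'.trans (le_trans ?_ k2)
  have : (27 + 1 + 50000 * 288 * K) * (H : ℝ) ^ e =
      27 * (H : ℝ) ^ e + (1 * (H : ℝ) ^ e + 50000 * 288 * K * (H : ℝ) ^ e) := by ring
  rw [this]
  linarith

end T9h23.Ha
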